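import Pool.Agent.Helper28.Koblitz.Defs

set_option autoImplicit false
open Filter Topology

namespace Pool.Agent.Helper28.Koblitz

/-! ### A lower bound for the number of points -/

section SWU

variable {F : Type*} [Field F] [Fintype F] [DecidableEq F]

omit [Fintype F] [DecidableEq F] in
theorem swu_identity {A B u x : F} (hA : A ≠ 0) (hu : u ≠ 0) (hu1 : u + 1 ≠ 0)
    (hx : x = -(B / A) * (1 + 1 / (u ^ 2 + u))) :
    (u * x) ^ 3 + A * (u * x) + B = u ^ 3 * (x ^ 3 + A * x + B) := by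
  have h1 : u ^ 2 + u = u * (u + 1) := by ring
  rw [h1] at hx
  subst hx
  field_simp
  ring

omit [Fintype F] in
theorem card_fiber_le {A B ν : F} (hA : A ≠ 0) (hB : B ≠ 0) (hν : ν ≠ 0) (c : F)
    (S : Finset F) (hS : ∀ s ∈ S, s ≠ 0 ∧ ν * s ^ 2 ≠ -1) :
    (S.filter (fun s => -(B / A) * (1 + 1 / ((ν * s ^ 2) ^ 2 + ν * s ^ 2)) = c)).card ≤ 4 := by
  classical
  set P : Polynomial F := Polynomial.C ((A * c + B) * ν ^ 2) * Polynomial.X ^ 4 +
    Polynomial.C ((A * c + B) * ν) * Polynomial.X ^ 2 + Polynomial.C B with hP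
  have hP0 : P ≠ 0 := by
    intro h
    have := congrArg (Polynomial.eval 0) h
    simp [hP] at this
    exact hB this
  have hdeg : P.natDegree ≤ 4 := by
    rw [hP]; compute_degree
  have hsub : (S.filter (fun s => -(B / A) * (1 + 1 / ((ν * s ^ 2) ^ 2 + ν * s ^ 2)) = c)) ⊆
      P.roots.toFinset := by
    intro s hs
    rw [Finset.mem_filter] at hs
    obtain ⟨hsS, hsc⟩ := hs
    obtain ⟨h0, h1⟩ := hS s hsS
    rw [Multiset.mem_toFinset, Polynomial.mem_roots hP0, Polynomial.IsRoot.def]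
    have hu : ν * s ^ 2 ≠ 0 := mul_ne_zero hν (pow_ne_zero _ h0)
    have hu1 : ν * s ^ 2 + 1 ≠ 0 := by
      intro h; apply h1; linear_combination h
    have h2 : (ν * s ^ 2) ^ 2 + ν * s ^ 2 ≠ 0 := by
      have : (ν * s ^ 2) ^ 2 + ν * s ^ 2 = (ν * s ^ 2) * (ν * s ^ 2 + 1) := by ring
      rw [this]; exact mul_ne_zero hu hu1
    simp only [hP, Polynomial.eval_add, Polynomial.eval_mul, Polynomial.eval_C,
      Polynomial.eval_pow, Polynomial.eval_X]
    rw [← hsc]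
    field_simp
    ring
  calc _ ≤ P.roots.toFinset.card := Finset.card_le_card hsub
    _ ≤ P.roots.card := Multiset.toFinset_card_le _
    _ ≤ P.natDegree := Polynomial.card_roots' P
    _ ≤ 4 := hdeg

omit [Fintype F] in
theorem card_fiber_le' {A B ν : F} (hA : A ≠ 0) (hB : B ≠ 0) (hν : ν ≠ 0) (c : F)
    (S : Finset F) (hS : ∀ s ∈ S, s ≠ 0 ∧ ν * s ^ 2 ≠ -1) :
    (S.filter (fun s => (ν * s ^ 2) *
      (-(B / A) * (1 + 1 / ((ν * s ^ 2) ^ 2 + ν * s ^ 2))) = c)).card ≤ 4 := by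
  classical
  set P : Polynomial F := Polynomial.C (B * ν ^ 2) * Polynomial.X ^ 4 +
    Polynomial.C ((A * c + B) * ν) * Polynomial.X ^ 2 + Polynomial.C (A * c + B) with hP
  have hP0 : P ≠ 0 := by
    intro h
    have h4 : P.coeff 4 = B * ν ^ 2 := by
      simp only [hP, Polynomial.coeff_add, Polynomial.coeff_C_mul, Polynomial.coeff_X_pow,
        Polynomial.coeff_C]
      norm_num
    rw [h, Polynomial.coeff_zero] at h4
    exact mul_ne_zero hB (pow_ne_zero 2 hν) h4.symm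
  have hdeg : P.natDegree ≤ 4 := by
    rw [hP]; compute_degree
  have hsub : (S.filter (fun s => (ν * s ^ 2) *
      (-(B / A) * (1 + 1 / ((ν * s ^ 2) ^ 2 + ν * s ^ 2))) = c)) ⊆
      P.roots.toFinset := by
    intro s hs
    rw [Finset.mem_filter] at hs
    obtain ⟨hsS, hsc⟩ := hs
    obtain ⟨h0, h1⟩ := hS s hsS
    rw [Multiset.mem_toFinset, Polynomial.mem_roots hP0, Polynomial.IsRoot.def]
    have hu : ν * s ^ 2 ≠ 0 := mul_ne_zero hν (pow_ne_zero _ h0)
    have hu1 : ν * s ^ 2 + 1 ≠ 0 := by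
      intro h; apply h1; linear_combination h
    have h2 : (ν * s ^ 2) ^ 2 + ν * s ^ 2 ≠ 0 := by
      have : (ν * s ^ 2) ^ 2 + ν * s ^ 2 = (ν * s ^ 2) * (ν * s ^ 2 + 1) := by ring
      rw [this]; exact mul_ne_zero hu hu1
    simp only [hP, Polynomial.eval_add, Polynomial.eval_mul, Polynomial.eval_C,
      Polynomial.eval_pow, Polynomial.eval_X]
    rw [← hsc]
    field_simp
    ring
  calc _ ≤ P.roots.toFinset.card := Finset.card_le_card hsub
    _ ≤ P.roots.card := Multiset.toFinset_card_le _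
    _ ≤ P.natDegree := Polynomial.card_roots' P
    _ ≤ 4 := hdeg

/-- Shallue–van de Woestijne–Ulas: an elementary linear lower bound for the number of `x` for
which `x³ + Ax + B` is a square. -/
theorem card_le_eight_mul (hF : ringChar F ≠ 2) {A B : F} (hA : A ≠ 0) (hB : B ≠ 0) :
    Fintype.card F ≤
      8 * (Finset.univ.filter (fun x : F => IsSquare (x ^ 3 + A * x + B))).card + 3 := by
  classical
  obtain ⟨ν, hν⟩ := FiniteField.exists_nonsquare hF
  have hν0 : ν ≠ 0 := by rintro rfl; exact hν (IsSquare.zero)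
  set X := Finset.univ.filter (fun x : F => IsSquare (x ^ 3 + A * x + B)) with hX
  set S := Finset.univ.filter (fun s : F => s ≠ 0 ∧ ν * s ^ 2 ≠ -1) with hSdef
  have hS : ∀ s ∈ S, s ≠ 0 ∧ ν * s ^ 2 ≠ -1 := by
    intro s hs; simpa [hSdef] using hs
  -- the complement of S has at most 3 elements
  have hcompl : (Finset.univ.filter (fun s : F => ¬ (s ≠ 0 ∧ ν * s ^ 2 ≠ -1))).card ≤ 3 := by
    set Q : Polynomial F := Polynomial.C ν * Polynomial.X ^ 3 + Polynomial.X with hQ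
    have hQ0 : Q ≠ 0 := by
      intro h
      have := congrArg (fun Q => Polynomial.coeff Q 1) h
      simp [hQ, Polynomial.coeff_X] at this
    have hdeg : Q.natDegree ≤ 3 := by
      rw [hQ]; compute_degree
    have hsub : (Finset.univ.filter (fun s : F => ¬ (s ≠ 0 ∧ ν * s ^ 2 ≠ -1))) ⊆
        Q.roots.toFinset := by
      intro s hs
      rw [Finset.mem_filter] at hs
      rw [Multiset.mem_toFinset, Polynomial.mem_roots hQ0, Polynomial.IsRoot.def]
      have h := hs.2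
      have h' : s = 0 ∨ ν * s ^ 2 = -1 := by
        by_contra hcon
        push Not at hcon
        exact h hcon
      simp only [hQ, Polynomial.eval_add, Polynomial.eval_mul, Polynomial.eval_C,
        Polynomial.eval_pow, Polynomial.eval_X]
      rcases h' with h' | h'
      · rw [h']; ring
      · linear_combination s * h'
    calc _ ≤ Q.roots.toFinset.card := Finset.card_le_card hsub
      _ ≤ Q.roots.card := Multiset.toFinset_card_le _
      _ ≤ Q.natDegree := Polynomial.card_roots' Q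
      _ ≤ 3 := hdeg
  have hcard : Fintype.card F = S.card +
      (Finset.univ.filter (fun s : F => ¬ (s ≠ 0 ∧ ν * s ^ 2 ≠ -1))).card := by
    rw [hSdef, Finset.card_filter_add_card_filter_not, Finset.card_univ]
  -- the two maps
  let g₁ : F → F := fun s => -(B / A) * (1 + 1 / ((ν * s ^ 2) ^ 2 + ν * s ^ 2))
  let g₂ : F → F := fun s => (ν * s ^ 2) *
      (-(B / A) * (1 + 1 / ((ν * s ^ 2) ^ 2 + ν * s ^ 2)))
  set S₁ := S.filter (fun s => g₁ s ∈ X) with hS₁
  set S₂ := S.filter (fun s => g₂ s ∈ X) with hS₂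
  have hunion : S ⊆ S₁ ∪ S₂ := by
    intro s hs
    obtain ⟨h0, h1⟩ := hS s hs
    have hXmem : ∀ x : F, x ∈ X ↔ IsSquare (x ^ 3 + A * x + B) := by
      intro x; simp [hX]
    have hm1 : s ∈ S₁ ↔ s ∈ S ∧ g₁ s ∈ X := Finset.mem_filter
    have hm2 : s ∈ S₂ ↔ s ∈ S ∧ g₂ s ∈ X := Finset.mem_filter
    rw [Finset.mem_union, hm1, hm2, hXmem, hXmem]
    have hu : ν * s ^ 2 ≠ 0 := mul_ne_zero hν0 (pow_ne_zero _ h0)
    have hu1 : ν * s ^ 2 + 1 ≠ 0 := by
      intro h; apply h1; linear_combination h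
    have hid := swu_identity (A := A) (B := B) (u := ν * s ^ 2) (x := g₁ s) hA hu hu1 rfl
    have hg : g₂ s = (ν * s ^ 2) * g₁ s := rfl
    by_cases hsq : IsSquare ((g₁ s) ^ 3 + A * (g₁ s) + B)
    · left; exact ⟨hs, hsq⟩
    · right
      refine ⟨hs, ?_⟩
      rw [hg, hid]
      have hne : (g₁ s) ^ 3 + A * (g₁ s) + B ≠ 0 := by
        intro h; apply hsq; rw [h]; exact IsSquare.zero
      have h3 : (ν * s ^ 2) ^ 3 * ((g₁ s) ^ 3 + A * (g₁ s) + B) =
          (ν * ((g₁ s) ^ 3 + A * (g₁ s) + B)) * (ν * s ^ 3) ^ 2 := by ring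
      rw [h3]
      have hmul : IsSquare (ν * ((g₁ s) ^ 3 + A * (g₁ s) + B)) := by
        have e1 : quadraticChar F ν = -1 := by
          rw [quadraticChar_neg_one_iff_not_isSquare]; exact hν
        have e2 : quadraticChar F ((g₁ s) ^ 3 + A * (g₁ s) + B) = -1 := by
          rw [quadraticChar_neg_one_iff_not_isSquare]; exact hsq
        have e3 : quadraticChar F (ν * ((g₁ s) ^ 3 + A * (g₁ s) + B)) = 1 := by
          rw [map_mul, e1, e2]; norm_num
        exact (quadraticChar_one_iff_isSquare (mul_ne_zero hν0 hne)).mp e3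
      exact hmul.mul ⟨ν * s ^ 3, by ring⟩
  have hc1 : S₁.card ≤ 4 * X.card := by
    apply Finset.card_le_mul_card_image_of_maps_to (f := g₁)
    · intro s hs; exact (Finset.mem_filter.mp hs).2
    · intro c _
      exact card_fiber_le hA hB hν0 c S₁ (fun s hs => hS s (Finset.mem_filter.mp hs).1)
  have hc2 : S₂.card ≤ 4 * X.card := by
    apply Finset.card_le_mul_card_image_of_maps_to (f := g₂)
    · intro s hs; exact (Finset.mem_filter.mp hs).2
    · intro c _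
      exact card_fiber_le' hA hB hν0 c S₂ (fun s hs => hS s (Finset.mem_filter.mp hs).1)
  have hcu : S.card ≤ S₁.card + S₂.card :=
    (Finset.card_le_card hunion).trans (Finset.card_union_le _ _)
  omega

end SWU

/-! ### Quadratic twists in short Weierstrass form -/

theorem quadTwist_equation_iff (E : WeierstrassCurve ℤ) (D : ℤ) (p : ℕ) (x y : ZMod p) :
    ((quadTwist E D).map (Int.castRingHom (ZMod p))).toAffine.Equation x y ↔
      y ^ 2 = x ^ 3 + (-27 * (E.c₄ : ZMod p) * (D : ZMod p) ^ 2) * x +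
        (-54 * (E.c₆ : ZMod p) * (D : ZMod p) ^ 3) := by
  rw [WeierstrassCurve.Affine.equation_iff]
  simp [quadTwist]

theorem equation_map_iff (E : WeierstrassCurve ℤ) (p : ℕ) (x y : ZMod p) :
    (E.map (Int.castRingHom (ZMod p))).toAffine.Equation x y ↔
      y ^ 2 + (E.a₁ : ZMod p) * x * y + (E.a₃ : ZMod p) * y =
        x ^ 3 + (E.a₂ : ZMod p) * x ^ 2 + (E.a₄ : ZMod p) * x + (E.a₆ : ZMod p) := by
  rw [WeierstrassCurve.Affine.equation_iff]
  simp

theorem two_ne_zero_zmod {p : ℕ} (hp : p.Prime) (h2 : p ≠ 2) : (2 : ZMod p) ≠ 0 := by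
  intro h
  have h' : ((2 : ℕ) : ZMod p) = 0 := by exact_mod_cast h
  rw [ZMod.natCast_eq_zero_iff] at h'
  exact h2 ((Nat.prime_dvd_prime_iff_eq hp Nat.prime_two).mp h')

theorem three_ne_zero_zmod {p : ℕ} (hp : p.Prime) (h3 : p ≠ 3) : (3 : ZMod p) ≠ 0 := by
  intro h
  have h' : ((3 : ℕ) : ZMod p) = 0 := by exact_mod_cast h
  rw [ZMod.natCast_eq_zero_iff] at h'
  exact h3 ((Nat.prime_dvd_prime_iff_eq hp Nat.prime_three).mp h')

section LongShort

variable {F : Type*} [Field F]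

theorem long_of_short {a1 a2 a3 a4 a6 X Y x y : F} (e2 : (2 : F) ≠ 0) (e3 : (3 : F) ≠ 0)
    (hx : X = 36 * x + 3 * (a1 ^ 2 + 4 * a2)) (hy : Y = 108 * (2 * y + a1 * x + a3))
    (h : Y ^ 2 = X ^ 3 + (-27 * ((a1 ^ 2 + 4 * a2) ^ 2 - 24 * (2 * a4 + a1 * a3))) * X +
      (-54 * (-(a1 ^ 2 + 4 * a2) ^ 3 + 36 * (a1 ^ 2 + 4 * a2) * (2 * a4 + a1 * a3) -
        216 * (a3 ^ 2 + 4 * a6)))) :
    y ^ 2 + a1 * x * y + a3 * y = x ^ 3 + a2 * x ^ 2 + a4 * x + a6 := by
  have h46656 : (46656 : F) ≠ 0 := by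
    have : (46656 : F) = 2 ^ 6 * 3 ^ 6 := by norm_num
    rw [this]; exact mul_ne_zero (pow_ne_zero _ e2) (pow_ne_zero _ e3)
  rw [hx, hy] at h
  apply mul_left_cancel₀ h46656
  linear_combination h

theorem short_of_long {a1 a2 a3 a4 a6 x y : F}
    (h : y ^ 2 + a1 * x * y + a3 * y = x ^ 3 + a2 * x ^ 2 + a4 * x + a6) :
    (108 * (2 * y + a1 * x + a3)) ^ 2 = (36 * x + 3 * (a1 ^ 2 + 4 * a2)) ^ 3 +
      (-27 * ((a1 ^ 2 + 4 * a2) ^ 2 - 24 * (2 * a4 + a1 * a3))) *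
        (36 * x + 3 * (a1 ^ 2 + 4 * a2)) +
      (-54 * (-(a1 ^ 2 + 4 * a2) ^ 3 + 36 * (a1 ^ 2 + 4 * a2) * (2 * a4 + a1 * a3) -
        216 * (a3 ^ 2 + 4 * a6))) := by
  linear_combination 46656 * h

/-- The bijection between the affine points of a long Weierstrass equation and those of its short
model. -/
noncomputable def longShortEquiv (a1 a2 a3 a4 a6 : F) (e2 : (2 : F) ≠ 0) (e3 : (3 : F) ≠ 0) :
    {q : F × F // q.2 ^ 2 = q.1 ^ 3 +
      (-27 * ((a1 ^ 2 + 4 * a2) ^ 2 - 24 * (2 * a4 + a1 * a3))) * q.1 +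
      (-54 * (-(a1 ^ 2 + 4 * a2) ^ 3 + 36 * (a1 ^ 2 + 4 * a2) * (2 * a4 + a1 * a3) -
        216 * (a3 ^ 2 + 4 * a6)))} ≃
    {q : F × F // q.2 ^ 2 + a1 * q.1 * q.2 + a3 * q.2 =
      q.1 ^ 3 + a2 * q.1 ^ 2 + a4 * q.1 + a6} where
  toFun q := ⟨((q.1.1 - 3 * (a1 ^ 2 + 4 * a2)) / 36,
      (q.1.2 / 108 - a1 * ((q.1.1 - 3 * (a1 ^ 2 + 4 * a2)) / 36) - a3) / 2), by
    have e36 : (36 : F) ≠ 0 := by
      have : (36 : F) = 2 ^ 2 * 3 ^ 2 := by norm_num
      rw [this]; exact mul_ne_zero (pow_ne_zero _ e2) (pow_ne_zero _ e3)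
    have e108 : (108 : F) ≠ 0 := by
      have : (108 : F) = 2 ^ 2 * 3 ^ 3 := by norm_num
      rw [this]; exact mul_ne_zero (pow_ne_zero _ e2) (pow_ne_zero _ e3)
    refine long_of_short e2 e3 ?_ ?_ q.2
    · field_simp; ring
    · field_simp; ring⟩
  invFun q := ⟨(36 * q.1.1 + 3 * (a1 ^ 2 + 4 * a2), 108 * (2 * q.1.2 + a1 * q.1.1 + a3)),
    short_of_long q.2⟩
  left_inv := by
    rintro ⟨⟨X, Y⟩, hXY⟩
    have e36 : (36 : F) ≠ 0 := by
      have : (36 : F) = 2 ^ 2 * 3 ^ 2 := by norm_num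
      rw [this]; exact mul_ne_zero (pow_ne_zero _ e2) (pow_ne_zero _ e3)
    have e108 : (108 : F) ≠ 0 := by
      have : (108 : F) = 2 ^ 2 * 3 ^ 3 := by norm_num
      rw [this]; exact mul_ne_zero (pow_ne_zero _ e2) (pow_ne_zero _ e3)
    apply Subtype.ext
    apply Prod.ext
    · show 36 * ((X - 3 * (a1 ^ 2 + 4 * a2)) / 36) + 3 * (a1 ^ 2 + 4 * a2) = X
      rw [mul_div_cancel₀ _ e36]; ring
    · show 108 * (2 * ((Y / 108 - a1 * ((X - 3 * (a1 ^ 2 + 4 * a2)) / 36) - a3) / 2) +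
        a1 * ((X - 3 * (a1 ^ 2 + 4 * a2)) / 36) + a3) = Y
      rw [mul_div_cancel₀ _ e2]
      have : Y / 108 - a1 * ((X - 3 * (a1 ^ 2 + 4 * a2)) / 36) - a3 +
        a1 * ((X - 3 * (a1 ^ 2 + 4 * a2)) / 36) + a3 = Y / 108 := by ring
      rw [this, mul_div_cancel₀ _ e108]
  right_inv := by
    rintro ⟨⟨x, y⟩, hxy⟩
    have e36 : (36 : F) ≠ 0 := by
      have : (36 : F) = 2 ^ 2 * 3 ^ 2 := by norm_num
      rw [this]; exact mul_ne_zero (pow_ne_zero _ e2) (pow_ne_zero _ e3)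
    have e108 : (108 : F) ≠ 0 := by
      have : (108 : F) = 2 ^ 2 * 3 ^ 3 := by norm_num
      rw [this]; exact mul_ne_zero (pow_ne_zero _ e2) (pow_ne_zero _ e3)
    have hx : (36 * x + 3 * (a1 ^ 2 + 4 * a2) - 3 * (a1 ^ 2 + 4 * a2)) / 36 = x := by
      rw [add_sub_cancel_right, mul_div_cancel_left₀ _ e36]
    apply Subtype.ext
    apply Prod.ext
    · exact hx
    · show ((108 * (2 * y + a1 * x + a3)) / 108 -
        a1 * ((36 * x + 3 * (a1 ^ 2 + 4 * a2) - 3 * (a1 ^ 2 + 4 * a2)) / 36) - a3) / 2 = y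
      rw [hx, mul_div_cancel_left₀ _ e108]
      have : 2 * y + a1 * x + a3 - a1 * x - a3 = 2 * y := by ring
      rw [this, mul_div_cancel_left₀ _ e2]

end LongShort

/-- The two short and long models have the same number of points for `p ≥ 5`. -/
theorem numPts_quadTwist_one (E : WeierstrassCurve ℤ) {p : ℕ} (hp : p.Prime) (h2 : p ≠ 2)
    (h3 : p ≠ 3) : numPts (quadTwist E 1) p = numPts E p := by
  have : Fact p.Prime := ⟨hp⟩
  have e2 := two_ne_zero_zmod hp h2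
  have e3 := three_ne_zero_zmod hp h3
  unfold numPts
  apply congrArg (fun n : ℕ => n + 1)
  have hc4 : (E.c₄ : ZMod p) = ((E.a₁ : ZMod p) ^ 2 + 4 * E.a₂) ^ 2 -
      24 * (2 * (E.a₄ : ZMod p) + E.a₁ * E.a₃) := by
    simp only [WeierstrassCurve.c₄, WeierstrassCurve.b₂, WeierstrassCurve.b₄]; push_cast; ring
  have hc6 : (E.c₆ : ZMod p) = -((E.a₁ : ZMod p) ^ 2 + 4 * E.a₂) ^ 3 +
      36 * ((E.a₁ : ZMod p) ^ 2 + 4 * E.a₂) * (2 * (E.a₄ : ZMod p) + E.a₁ * E.a₃) -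
      216 * ((E.a₃ : ZMod p) ^ 2 + 4 * E.a₆) := by
    simp only [WeierstrassCurve.c₆, WeierstrassCurve.b₂, WeierstrassCurve.b₄,
      WeierstrassCurve.b₆]; push_cast; ring
  have hs1 : ∀ q : ZMod p × ZMod p,
      ((quadTwist E 1).map (Int.castRingHom (ZMod p))).toAffine.Equation q.1 q.2 ↔
      q.2 ^ 2 = q.1 ^ 3 + (-27 * (((E.a₁ : ZMod p) ^ 2 + 4 * E.a₂) ^ 2 -
        24 * (2 * (E.a₄ : ZMod p) + E.a₁ * E.a₃))) * q.1 +
      (-54 * (-((E.a₁ : ZMod p) ^ 2 + 4 * E.a₂) ^ 3 + 36 * ((E.a₁ : ZMod p) ^ 2 + 4 * E.a₂) *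
        (2 * (E.a₄ : ZMod p) + E.a₁ * E.a₃) - 216 * ((E.a₃ : ZMod p) ^ 2 + 4 * E.a₆))) := by
    intro q
    rw [quadTwist_equation_iff, hc4, hc6]
    simp
  have hs2 : ∀ q : ZMod p × ZMod p,
      (E.map (Int.castRingHom (ZMod p))).toAffine.Equation q.1 q.2 ↔
      q.2 ^ 2 + (E.a₁ : ZMod p) * q.1 * q.2 + (E.a₃ : ZMod p) * q.2 =
        q.1 ^ 3 + (E.a₂ : ZMod p) * q.1 ^ 2 + (E.a₄ : ZMod p) * q.1 + (E.a₆ : ZMod p) :=
    fun q => equation_map_iff E p q.1 q.2
  rw [Nat.card_congr (Equiv.subtypeEquivRight hs1), Nat.card_congr (Equiv.subtypeEquivRight hs2)]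
  exact Nat.card_congr (longShortEquiv _ _ _ _ _ e2 e3)

theorem le_eight_mul_numPts (E : WeierstrassCurve ℤ) {p : ℕ} (hp : p.Prime) (h2 : p ≠ 2)
    (h3 : p ≠ 3) (h4 : ¬ ((p : ℤ) ∣ E.c₄)) (h6 : ¬ ((p : ℤ) ∣ E.c₆)) :
    p ≤ 8 * numPts E p + 3 := by
  classical
  have : Fact p.Prime := ⟨hp⟩
  have e2 := two_ne_zero_zmod hp h2
  have e3 := three_ne_zero_zmod hp h3
  rw [← numPts_quadTwist_one E hp h2 h3]
  have hA : (-27 * (E.c₄ : ZMod p) * ((1 : ℤ) : ZMod p) ^ 2) ≠ 0 := by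
    have h27 : (27 : ZMod p) ≠ 0 := by
      have : (27 : ZMod p) = 3 ^ 3 := by norm_num
      rw [this]; exact pow_ne_zero _ e3
    have hc : (E.c₄ : ZMod p) ≠ 0 := by
      rw [Ne, ZMod.intCast_zmod_eq_zero_iff_dvd]; exact h4
    simp only [Int.cast_one, one_pow, mul_one]
    exact mul_ne_zero (neg_ne_zero.mpr h27) hc
  have hB : (-54 * (E.c₆ : ZMod p) * ((1 : ℤ) : ZMod p) ^ 3) ≠ 0 := by
    have h54 : (54 : ZMod p) ≠ 0 := by
      have : (54 : ZMod p) = 2 * 3 ^ 3 := by norm_num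
      rw [this]; exact mul_ne_zero e2 (pow_ne_zero _ e3)
    have hc : (E.c₆ : ZMod p) ≠ 0 := by
      rw [Ne, ZMod.intCast_zmod_eq_zero_iff_dvd]; exact h6
    simp only [Int.cast_one, one_pow, mul_one]
    exact mul_ne_zero (neg_ne_zero.mpr h54) hc
  have hchar : ringChar (ZMod p) ≠ 2 := by
    rw [ZMod.ringChar_zmod_n]; exact h2
  have h8 := card_le_eight_mul hchar hA hB
  rw [ZMod.card] at h8
  have hinj : (Finset.univ.filter (fun x : ZMod p => IsSquare (x ^ 3 +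
      (-27 * (E.c₄ : ZMod p) * ((1 : ℤ) : ZMod p) ^ 2) * x +
      (-54 * (E.c₆ : ZMod p) * ((1 : ℤ) : ZMod p) ^ 3)))).card ≤
      Nat.card {q : ZMod p × ZMod p //
        ((quadTwist E 1).map (Int.castRingHom (ZMod p))).toAffine.Equation q.1 q.2} := by
    rw [Nat.card_eq_fintype_card, ← Fintype.card_coe]
    refine Fintype.card_le_of_injective (fun x => ⟨(x.1, ((Finset.mem_filter.mp x.2).2).choose), ?_⟩)
      ?_
    · rw [quadTwist_equation_iff]
      have h := ((Finset.mem_filter.mp x.2).2).choose_spec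
      exact (pow_two _).trans h.symm
    · intro x y hxy
      apply Subtype.ext
      exact congrArg (fun z => z.1.1) hxy
  have hnp : numPts (quadTwist E 1) p = Nat.card {q : ZMod p × ZMod p //
        ((quadTwist E 1).map (Int.castRingHom (ZMod p))).toAffine.Equation q.1 q.2} + 1 := rfl
  omega

theorem finite_dvd {n : ℤ} (hn : n ≠ 0) : {p : ℕ | (p : ℤ) ∣ n}.Finite := by
  refine (Set.finite_Iic n.natAbs).subset ?_
  intro p hp
  rw [Set.mem_Iic]
  apply Nat.le_of_dvd (Int.natAbs_pos.mpr hn)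
  exact Int.natCast_dvd.mp hp

/-- Only finitely many primes have at most `B` points. -/
theorem finite_numPts_le (E : WeierstrassCurve ℤ) (h4 : E.c₄ ≠ 0) (h6 : E.c₆ ≠ 0) (B : ℕ) :
    {p : ℕ | p.Prime ∧ numPts E p ≤ B}.Finite := by
  refine (((Set.finite_Iic (8 * B + 3)).union (finite_dvd h4)).union (finite_dvd h6)).subset ?_
  rintro p ⟨hp, hB⟩
  by_cases hp4 : (p : ℤ) ∣ E.c₄
  · left; right; exact hp4
  by_cases hp6 : (p : ℤ) ∣ E.c₆
  · right; exact hp6
  left; left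
  rw [Set.mem_Iic]
  by_cases h2 : p = 2
  · omega
  by_cases h3 : p = 3
  · omega
  have := le_eight_mul_numPts E hp h2 h3 hp4 hp6
  omega

theorem tendsto_card_primes_atTop :
    Tendsto (fun x : ℕ => (((Finset.range (x + 1)).filter Nat.Prime).card : ℝ)) atTop atTop := by
  apply tendsto_natCast_atTop_atTop.comp
  rw [tendsto_atTop_atTop]
  intro b
  obtain ⟨s, hs, hcard⟩ := Nat.infinite_setOfPred_prime.exists_subset_card_eq b
  refine ⟨s.sup id, fun a ha => ?_⟩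
  rw [← hcard]
  apply Finset.card_le_card
  intro q hq
  rw [Finset.mem_filter, Finset.mem_range]
  refine ⟨?_, hs hq⟩
  have : q ≤ s.sup id := Finset.le_sup (f := id) hq
  omega

theorem tendsto_unitFreq_zero (E : WeierstrassCurve ℤ) (t m : ℕ)
    (hfin : {p : ℕ | p.Prime ∧ ¬ (((p : ℕ) : ℤ) ∣ E.Δ) ∧
      ∃ u : ZMod m, IsUnit u ∧ ((numPts E p : ℕ) : ZMod m) = (t : ZMod m) * u}.Finite) :
    Tendsto (fun x : ℕ => unitFreq E t m x) atTop (nhds 0) := by
  classical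
  have hbound : ∀ x : ℕ, unitFreq E t m x ≤
      (hfin.toFinset.card : ℝ) / (((Finset.range (x + 1)).filter Nat.Prime).card : ℝ) := by
    intro x
    unfold unitFreq
    apply div_le_div_of_nonneg_right _ (Nat.cast_nonneg _)
    apply Nat.cast_le.mpr
    apply Finset.card_le_card
    intro p hp
    rw [Finset.mem_filter] at hp
    rw [Set.Finite.mem_toFinset]
    exact hp.2
  have hnonneg : ∀ x : ℕ, 0 ≤ unitFreq E t m x := by
    intro x; unfold unitFreq; positivity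
  refine squeeze_zero hnonneg hbound ?_
  exact tendsto_card_primes_atTop.const_div_atTop _

/-- The basic criterion: if, for some `m₀ > 0`, only finitely many primes `p ∤ Δ` satisfy
`|E(𝔽_p)| ∈ t · (ℤ/m₀)ˣ`, then the refined Koblitz conjecture holds for `(E, t)`, with
`C_{E,t} = 0` and with bounded counting function. -/
theorem koblitz_of_finite (E : WeierstrassCurve ℤ) (h4 : E.c₄ ≠ 0) (h6 : E.c₆ ≠ 0) (t m₀ : ℕ)
    (hm : 0 < m₀)
    (hfin : {p : ℕ | p.Prime ∧ ¬ (((p : ℕ) : ℤ) ∣ E.Δ) ∧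
      ∃ u : ZMod m₀, IsUnit u ∧ ((numPts E p : ℕ) : ZMod m₀) = (t : ZMod m₀) * u}.Finite) :
    {p : ℕ | p.Prime ∧ ¬ (((p : ℕ) : ℤ) ∣ E.Δ) ∧ t ∣ numPts E p ∧
      Nat.Prime (numPts E p / t)}.Finite ∧ ConstantZero E t ∧ RefinedKoblitz E t := by
  classical
  have hA : {p : ℕ | p.Prime ∧ ¬ (((p : ℕ) : ℤ) ∣ E.Δ) ∧ t ∣ numPts E p ∧
      Nat.Prime (numPts E p / t)}.Finite := by
    refine (hfin.union (finite_numPts_le E h4 h6 (t * m₀))).subset ?_
    rintro p ⟨hp, hgood, ⟨q, hq⟩, hqp⟩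
    have ht : 0 < t := by
      rcases Nat.eq_zero_or_pos t with h | h
      · subst h; simp at hqp; exact absurd hqp (by norm_num)
      · exact h
    rw [hq, Nat.mul_div_cancel_left _ ht] at hqp
    by_cases hdvd : q ∣ m₀
    · right
      refine ⟨hp, ?_⟩
      rw [hq]
      exact Nat.mul_le_mul_left _ (Nat.le_of_dvd hm hdvd)
    · left
      refine ⟨hp, hgood, (q : ZMod m₀), ?_, ?_⟩
      · rw [ZMod.isUnit_iff_coprime]
        exact (Nat.Prime.coprime_iff_not_dvd hqp).mpr hdvd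
      · rw [hq]; push_cast; ring
  have hmfin : ∀ m : ℕ, m₀ ∣ m → {p : ℕ | p.Prime ∧ ¬ (((p : ℕ) : ℤ) ∣ E.Δ) ∧
      ∃ u : ZMod m, IsUnit u ∧ ((numPts E p : ℕ) : ZMod m) = (t : ZMod m) * u}.Finite := by
    intro m hmm
    refine hfin.subset ?_
    rintro p ⟨hp, hgood, u, hu, hN⟩
    refine ⟨hp, hgood, ZMod.castHom hmm (ZMod m₀) u, hu.map _, ?_⟩
    have := congrArg (ZMod.castHom hmm (ZMod m₀)) hN
    rwa [map_mul, map_natCast, map_natCast] at this
  have hB : ConstantZero E t :=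
    ⟨m₀, hm, fun m _ hmm => tendsto_unitFreq_zero E t m (hmfin m hmm)⟩
  refine ⟨hA, hB, ?_⟩
  intro δ C hδ hC
  have hC0 : C = 0 := by
    have h0 : Tendsto (fun n : ℕ => δ (Nat.factorial n) /
        ∏ ℓ ∈ (Nat.factorial n).primeFactors, (1 - 1 / (ℓ : ℝ))) atTop (nhds 0) := by
      apply tendsto_const_nhds.congr'
      filter_upwards [eventually_ge_atTop m₀] with n hn
      have hdiv : m₀ ∣ n.factorial := Nat.dvd_factorial hm hn
      have : δ n.factorial = 0 :=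
        tendsto_nhds_unique (hδ _ n.factorial_pos)
          (tendsto_unitFreq_zero E t _ (hmfin _ hdiv))
      rw [this, zero_div]
    exact tendsto_nhds_unique hC h0
  rw [hC0]
  have hbound : ∀ x : ℕ, (koblitzCount E t x : ℝ) / ((x : ℝ) / (Real.log x) ^ 2) ≤
      (hA.toFinset.card : ℝ) * ((Real.log x) ^ 2 / (x : ℝ)) := by
    intro x
    have h1 : (koblitzCount E t x : ℝ) ≤ (hA.toFinset.card : ℝ) := by
      apply Nat.cast_le.mpr
      unfold koblitzCount
      apply Finset.card_le_card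
      intro p hp
      rw [Finset.mem_filter] at hp
      rw [Set.Finite.mem_toFinset]
      exact hp.2
    rw [div_div_eq_mul_div, mul_div_assoc]
    exact mul_le_mul_of_nonneg_right h1 (by positivity)
  have hnonneg : ∀ x : ℕ, 0 ≤ (koblitzCount E t x : ℝ) / ((x : ℝ) / (Real.log x) ^ 2) := by
    intro x; positivity
  refine squeeze_zero hnonneg hbound ?_
  have hlog : Tendsto (fun x : ℕ => (Real.log x) ^ 2 / (x : ℝ)) atTop (nhds 0) := by
    have h := (isLittleO_log_rpow_atTop (show (0 : ℝ) < 1 / 2 by norm_num))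
    have h2 : Tendsto (fun x : ℝ => (Real.log x / x ^ ((1 : ℝ) / 2))) atTop (nhds 0) :=
      h.tendsto_div_nhds_zero
    have h3 : Tendsto (fun x : ℝ => (Real.log x / x ^ ((1 : ℝ) / 2)) ^ 2) atTop (nhds 0) := by
      simpa using h2.pow 2
    have h4 : Tendsto (fun x : ℕ => (Real.log x / (x : ℝ) ^ ((1 : ℝ) / 2)) ^ 2) atTop (nhds 0) :=
      h3.comp tendsto_natCast_atTop_atTop
    apply h4.congr'
    filter_upwards [eventually_ge_atTop 1] with x _
    rw [div_pow]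
    congr 1
    rw [← Real.rpow_natCast, ← Real.rpow_mul (Nat.cast_nonneg x)]
    norm_num
  simpa using hlog.const_mul (hA.toFinset.card : ℝ)

end Pool.Agent.Helper28.Koblitz
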