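import Mathlib

set_option autoImplicit false

namespace Pool.Agent.Helper28.Koblitz

section

variable {F L : Type*} [Field F] [Fintype F] [Field L] [Algebra F L]

theorem mem_range_of_pow_card {x : L} (h : x ^ (Fintype.card F) = x) :
    ∃ a : F, algebraMap F L a = x := by
  classical
  set P : Polynomial L := Polynomial.X ^ (Fintype.card F) - Polynomial.X with hP
  have hcard : 1 < Fintype.card F := Fintype.one_lt_card
  have hP0 : P ≠ 0 := FiniteField.X_pow_card_sub_X_ne_zero L hcard
  have hdeg : P.natDegree = Fintype.card F := FiniteField.X_pow_card_sub_X_natDegree_eq L hcard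
  set S : Finset L := Finset.univ.image (algebraMap F L) with hS
  have hScard : S.card = Fintype.card F := by
    rw [hS, Finset.card_image_of_injective _ (algebraMap F L).injective, Finset.card_univ]
  have hsub : S ⊆ P.roots.toFinset := by
    intro y hy
    rw [hS, Finset.mem_image] at hy
    obtain ⟨a, _, rfl⟩ := hy
    rw [Multiset.mem_toFinset, Polynomial.mem_roots hP0, Polynomial.IsRoot.def]
    simp only [hP, Polynomial.eval_sub, Polynomial.eval_pow, Polynomial.eval_X]
    rw [← map_pow, FiniteField.pow_card, sub_self]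
  have hle : P.roots.toFinset.card ≤ S.card := by
    rw [hScard, ← hdeg]
    exact (Multiset.toFinset_card_le _).trans (Polynomial.card_roots' P)
  have heq := Finset.eq_of_subset_of_card_le hsub hle
  have hx : x ∈ P.roots.toFinset := by
    rw [Multiset.mem_toFinset, Polynomial.mem_roots hP0, Polynomial.IsRoot.def]
    simp only [hP, Polynomial.eval_sub, Polynomial.eval_pow, Polynomial.eval_X]
    rw [h, sub_self]
  rw [← heq, hS, Finset.mem_image] at hx
  obtain ⟨a, _, ha⟩ := hx
  exact ⟨a, ha⟩

end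

section

variable {F : Type*} [Field F] [Finite F]

/-- The discriminant of a cubic without roots over a finite field is a square. -/
theorem isSquare_disc_of_no_root {A B : F} (h : ∀ e : F, e ^ 3 + A * e + B ≠ 0) :
    IsSquare (-(4 * A ^ 3 + 27 * B ^ 2)) := by
  classical
  have := Fintype.ofFinite F
  set K := AlgebraicClosure F
  set φ : K →ₐ[F] K := FiniteField.frobeniusAlgHom F K with hφ
  have hφfix : ∀ x : K, φ x = x → ∃ a : F, algebraMap F K a = x := by
    intro x hx
    apply mem_range_of_pow_card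
    simpa [hφ] using hx
  have hinj : Function.Injective φ := φ.toRingHom.injective
  set a : K := algebraMap F K A with ha
  set b : K := algebraMap F K B with hb
  have hφa : φ a = a := φ.commutes A
  have hφb : φ b = b := φ.commutes B
  -- no fixed root
  have hnofix : ∀ x : K, x ^ 3 + a * x + b = 0 → φ x ≠ x := by
    intro x hx hfix
    obtain ⟨e, rfl⟩ := hφfix x hfix
    apply h e
    apply (algebraMap F K).injective
    simpa [ha, hb] using hx
  have hφroot : ∀ x : K, x ^ 3 + a * x + b = 0 → (φ x) ^ 3 + a * (φ x) + b = 0 := by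
    intro x hx
    have := congrArg φ hx
    simpa [hφa, hφb] using this
  -- a root
  obtain ⟨x, hx⟩ : ∃ x : K, x ^ 3 + a * x + b = 0 := by
    set P : Polynomial K := Polynomial.X ^ 3 + Polynomial.C a * Polynomial.X + Polynomial.C b
      with hP
    have hdeg : P.degree ≠ 0 := by
      have : P.degree = 3 := by
        rw [hP]; compute_degree!
      rw [this]; norm_num
    obtain ⟨x, hx⟩ := IsAlgClosed.exists_root P hdeg
    refine ⟨x, ?_⟩
    simpa [hP, Polynomial.IsRoot.def] using hx
  set y := φ x with hy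
  have hyroot := hφroot x hx
  rw [← hy] at hyroot
  have hxy : x - y ≠ 0 := by
    intro h0
    exact hnofix x hx (by rw [← hy]; exact (sub_eq_zero.mp h0).symm)
  -- relations
  have hA : a = -(x ^ 2 + x * y + y ^ 2) := by
    apply mul_left_cancel₀ hxy
    linear_combination hx - hyroot
  have hB : b = x * y * (x + y) := by
    rw [hA] at hx
    linear_combination hx
  set z := -x - y with hz
  have hfactor : ∀ w : K, w ^ 3 + a * w + b = (w - x) * (w - y) * (w - z) := by
    intro w; rw [hA, hB, hz]; ring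
  have hφy := hφroot y hyroot
  rw [hfactor] at hφy
  have hφyne : φ y - y ≠ 0 := by
    intro h0; exact hnofix y hyroot (sub_eq_zero.mp h0)
  have hφyx : φ y - x ≠ 0 := by
    intro h0
    have h1 : φ y = x := sub_eq_zero.mp h0
    have hzroot : z ^ 3 + a * z + b = 0 := by rw [hfactor]; ring
    apply hnofix z hzroot
    rw [hz, map_sub, map_neg, h1, ← hy]
    ring
  have hφyz : φ y = z := by
    rcases mul_eq_zero.mp hφy with h1 | h1
    · rcases mul_eq_zero.mp h1 with h2 | h2
      · exact absurd h2 hφyx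
      · exact absurd h2 hφyne
    · exact sub_eq_zero.mp h1
  have hφz : φ z = x := by
    rw [hz, map_sub, map_neg, hφyz, ← hy, hz]; ring
  have hδ : φ ((x - y) * (y - z) * (z - x)) = (x - y) * (y - z) * (z - x) := by
    have e1 : φ (x - y) = y - z := by rw [map_sub, hφyz]
    have e2 : φ (y - z) = z - x := by rw [map_sub φ y z, hφyz, hφz]
    have e3 : φ (z - x) = x - y := by rw [map_sub φ z x, hφz]
    rw [map_mul, map_mul, e1, e2, e3]; ring
  obtain ⟨d, hd⟩ := hφfix _ hδ
  refine ⟨d, ?_⟩
  apply (algebraMap F K).injective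
  rw [map_mul, hd, map_neg, map_add, map_mul, map_mul, map_pow, map_pow, ← ha, ← hb, hA, hB, hz]
  simp only [map_ofNat]
  ring

omit [Finite F] in
/-- A cubic with exactly one root has non-square discriminant; in other words if the discriminant
is a square and there is a root then there is another root. -/
theorem exists_other_root_of_isSquare_disc (h2 : (2 : F) ≠ 0) {A B e : F}
    (he : e ^ 3 + A * e + B = 0) (hdisc : 4 * A ^ 3 + 27 * B ^ 2 ≠ 0)
    (hsq : IsSquare (-(4 * A ^ 3 + 27 * B ^ 2))) :
    ∃ r : F, r ^ 3 + A * r + B = 0 ∧ r ≠ e := by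
  -- disc f = disc q * q(e)^2, with q = x² + e x + (A + e²)
  have hB : B = -e ^ 3 - A * e := by linear_combination he
  obtain ⟨s, hs⟩ := hsq
  have hq : 3 * e ^ 2 + A ≠ 0 := by
    intro h0
    apply hdisc
    have hA : A = -3 * e ^ 2 := by linear_combination h0
    rw [hB, hA]; ring
  have hid : -(4 * A ^ 3 + 27 * B ^ 2) = (-3 * e ^ 2 - 4 * A) * (3 * e ^ 2 + A) ^ 2 := by
    rw [hB]; ring
  set w := s / (3 * e ^ 2 + A) with hw
  have hw2 : w ^ 2 = -3 * e ^ 2 - 4 * A := by
    rw [hw, div_pow, div_eq_iff (pow_ne_zero 2 hq), ← hid, hs]; ring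
  refine ⟨(-e + w) / 2, ?_, ?_⟩
  · have h8 : (8 : F) ≠ 0 := by
      have : (8 : F) = 2 ^ 3 := by norm_num
      rw [this]; exact pow_ne_zero _ h2
    have hr : 2 * ((-e + w) / 2) = -e + w := mul_div_cancel₀ _ h2
    set r := (-e + w) / 2
    apply mul_left_cancel₀ h8
    have hw' : w = 2 * r + e := by linear_combination -hr
    rw [hw'] at hw2
    rw [hB]
    linear_combination 2 * (r - e) * hw2
  · intro hr
    have hr' : -e + w = 2 * e := by
      rw [div_eq_iff h2] at hr
      linear_combination hr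
    have hw3 : w = 3 * e := by linear_combination hr'
    rw [hw3] at hw2
    apply mul_ne_zero h2 (mul_ne_zero h2 hq)
    linear_combination hw2

/-- If `disc f` is not a square, `e` is a root of `f = x³ + Ax + B` and `f'(e)` is a square then
`f'(e) = β²` with `3e + 2β` a non-zero square. -/
theorem exists_halving (h2 : (2 : F) ≠ 0) {A B e : F}
    (he : e ^ 3 + A * e + B = 0) (hdisc : 4 * A ^ 3 + 27 * B ^ 2 ≠ 0)
    (hns : ∀ r : F, r ^ 3 + A * r + B = 0 → r = e)
    (hsq : IsSquare (3 * e ^ 2 + A)) :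
    ∃ β γ : F, 3 * e ^ 2 + A = β ^ 2 ∧ 3 * e + 2 * β = γ ^ 2 ∧ β ≠ 0 ∧ γ ≠ 0 := by
  classical
  have := Fintype.ofFinite F
  have hB : B = -e ^ 3 - A * e := by linear_combination he
  have hq : 3 * e ^ 2 + A ≠ 0 := by
    intro h0
    apply hdisc
    have hA : A = -3 * e ^ 2 := by linear_combination h0
    rw [hB, hA]; ring
  obtain ⟨β, hβ⟩ := hsq
  have hβ0 : β ≠ 0 := by rintro rfl; exact hq (by rw [hβ]; ring)
  have hid : -(4 * A ^ 3 + 27 * B ^ 2) = (-3 * e ^ 2 - 4 * A) * (3 * e ^ 2 + A) ^ 2 := by
    rw [hB]; ring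
  have hprod : (3 * e + 2 * β) * (3 * e + 2 * (-β)) = -3 * e ^ 2 - 4 * A := by
    linear_combination 4 * hβ
  have hnsq : ¬ IsSquare (-3 * e ^ 2 - 4 * A) := by
    intro hsq
    have : IsSquare (-(4 * A ^ 3 + 27 * B ^ 2)) := by
      rw [hid]; exact hsq.mul ⟨3 * e ^ 2 + A, by ring⟩
    obtain ⟨r, hr, hre⟩ := exists_other_root_of_isSquare_disc h2 he hdisc this
    exact hre (hns r hr)
  have hne : -3 * e ^ 2 - 4 * A ≠ 0 := by
    intro h0; apply hnsq; rw [h0]; exact IsSquare.zero
  have h1 : 3 * e + 2 * β ≠ 0 := by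
    intro h0; apply hne; rw [← hprod, h0, zero_mul]
  have h2' : 3 * e + 2 * (-β) ≠ 0 := by
    intro h0; apply hne; rw [← hprod, h0, mul_zero]
  by_cases hs1 : IsSquare (3 * e + 2 * β)
  · obtain ⟨γ, hγ⟩ := hs1
    refine ⟨β, γ, by rw [hβ]; ring, by rw [hγ]; ring, hβ0, ?_⟩
    rintro rfl; exact h1 (by rw [hγ]; ring)
  · by_cases hs2 : IsSquare (3 * e + 2 * (-β))
    · obtain ⟨γ, hγ⟩ := hs2
      refine ⟨-β, γ, by rw [hβ]; ring, by rw [hγ]; ring, neg_ne_zero.mpr hβ0, ?_⟩
      rintro rfl; exact h2' (by rw [hγ]; ring)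
    · exfalso
      apply hnsq
      rw [← hprod]
      have e1 : quadraticChar F (3 * e + 2 * β) = -1 := by
        rw [quadraticChar_neg_one_iff_not_isSquare]; exact hs1
      have e2 : quadraticChar F (3 * e + 2 * (-β)) = -1 := by
        rw [quadraticChar_neg_one_iff_not_isSquare]; exact hs2
      have e3 : quadraticChar F ((3 * e + 2 * β) * (3 * e + 2 * (-β))) = 1 := by
        rw [map_mul, e1, e2]; norm_num
      exact (quadraticChar_one_iff_isSquare (mul_ne_zero h1 h2')).mp e3

end

end Pool.Agent.Helper28.Koblitz
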