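import Mathlib

set_option autoImplicit false
open Filter Topology

namespace Pool.Agent.Helper28.Koblitz

/-- The number of points of the reduction of `E` modulo `p` (affine solutions of the reduced
Weierstrass equation, plus the point at infinity), as in the frozen statement of the problem. -/
noncomputable def numPts (E : WeierstrassCurve ℤ) (p : ℕ) : ℕ :=
  Nat.card {q : ZMod p × ZMod p //
    (E.map (Int.castRingHom (ZMod p))).toAffine.Equation q.1 q.2} + 1

open Classical in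
/-- `π_{E,t}(x)`: the number of primes `p ≤ x`, `p ∤ Δ`, such that `|E(𝔽_p)|/t` is a prime. -/
noncomputable def koblitzCount (E : WeierstrassCurve ℤ) (t x : ℕ) : ℕ :=
  ((Finset.range (x + 1)).filter (fun p : ℕ => p.Prime ∧ ¬ (((p : ℕ) : ℤ) ∣ E.Δ) ∧
    t ∣ numPts E p ∧ Nat.Prime (numPts E p / t))).card

open Classical in
/-- The proportion, among the primes `≤ x`, of the primes `p ∤ Δ` with
`|E(𝔽_p)| ∈ t · (ℤ/m)ˣ`. -/
noncomputable def unitFreq (E : WeierstrassCurve ℤ) (t m x : ℕ) : ℝ :=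
  (((Finset.range (x + 1)).filter (fun p : ℕ => p.Prime ∧ ¬ (((p : ℕ) : ℤ) ∣ E.Δ) ∧
      ∃ u : ZMod m, IsUnit u ∧ ((numPts E p : ℕ) : ZMod m) = (t : ZMod m) * u)).card : ℝ) /
    (((Finset.range (x + 1)).filter Nat.Prime).card : ℝ)

/-- The refined Koblitz conjecture for the pair `(E, t)`, in the form of the frozen statement:
if `δ m` is the natural density of the primes `p` with `|E(𝔽_p)| ∈ t · (ℤ/m)ˣ` and `C` is the
limit of `δ (n!) / ∏_{ℓ ∣ n!} (1 - 1/ℓ)`, then `π_{E,t}(x) / (x / (log x)^2) → C`. -/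
def RefinedKoblitz (E : WeierstrassCurve ℤ) (t : ℕ) : Prop :=
  ∀ (δ : ℕ → ℝ) (C : ℝ),
    (∀ m : ℕ, 0 < m → Tendsto (fun x : ℕ => unitFreq E t m x) atTop (nhds (δ m))) →
    Tendsto (fun n : ℕ => δ (Nat.factorial n) /
        ∏ ℓ ∈ (Nat.factorial n).primeFactors, (1 - 1 / (ℓ : ℝ))) atTop (nhds C) →
    Tendsto (fun x : ℕ => (koblitzCount E t x : ℝ) / ((x : ℝ) / (Real.log x) ^ 2)) atTop (nhds C)

/-- The constant `C_{E,t}` vanishes because of a congruence obstruction: for all multiples `m` of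
some `m₀ > 0`, the density of the primes `p ∤ Δ` with `|E(𝔽_p)| ∈ t · (ℤ/m)ˣ` is zero. -/
def ConstantZero (E : WeierstrassCurve ℤ) (t : ℕ) : Prop :=
  ∃ m₀ : ℕ, 0 < m₀ ∧ ∀ m : ℕ, 0 < m → m₀ ∣ m →
    Tendsto (fun x : ℕ => unitFreq E t m x) atTop (nhds 0)

/-- The quadratic twist by `D`, as the short Weierstrass equation
`Y² = X³ - 27 c₄ D² X - 54 c₆ D³`; for `D = 1` it is a short Weierstrass model of `E` itself. -/
def quadTwist (E : WeierstrassCurve ℤ) (D : ℤ) : WeierstrassCurve ℤ :=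
  ⟨0, 0, 0, -27 * E.c₄ * D ^ 2, -54 * E.c₆ * D ^ 3⟩

end Pool.Agent.Helper28.Koblitz
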