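import Pool.Agent.Helper28.Koblitz.Base

set_option autoImplicit false

namespace Pool.Agent.Helper28.Koblitz

open WeierstrassCurve

section Generic

variable {F : Type*} [Field F] [DecidableEq F]

/-- Doubling with a prescribed slope. -/
theorem add_self_eq {W : WeierstrassCurve.Affine F} {x y l x' y' : F} (h : W.Nonsingular x y)
    (h' : W.Nonsingular x' y') (hy : y - W.negY x y ≠ 0)
    (hl : l * (y - W.negY x y) = 3 * x ^ 2 + 2 * W.a₂ * x + W.a₄ - W.a₁ * y)
    (hx' : x' = W.addX x x l) (hy' : y' = W.addY x x y l) :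
    Affine.Point.some x y h + Affine.Point.some x y h = Affine.Point.some x' y' h' := by
  have hne : y ≠ W.negY x y := fun e => hy (sub_eq_zero.mpr e)
  have hs : W.slope x x y y = l := by
    rw [Affine.slope_of_Y_ne rfl hne, ← hl, mul_div_cancel_right₀ _ hy]
  rw [Affine.Point.add_self_of_Y_ne hne]
  rw [Affine.Point.some.injEq, hs]
  exact ⟨hx'.symm, hy'.symm⟩

/-- Addition of points with distinct abscissae, with a prescribed slope. -/
theorem add_chord_eq {W : WeierstrassCurve.Affine F} {x₁ y₁ x₂ y₂ l x' y' : F}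
    (h₁ : W.Nonsingular x₁ y₁) (h₂ : W.Nonsingular x₂ y₂)
    (h' : W.Nonsingular x' y') (hx : x₁ - x₂ ≠ 0)
    (hl : l * (x₁ - x₂) = y₁ - y₂)
    (hx' : x' = W.addX x₁ x₂ l) (hy' : y' = W.addY x₁ x₂ y₁ l) :
    Affine.Point.some x₁ y₁ h₁ + Affine.Point.some x₂ y₂ h₂ = Affine.Point.some x' y' h' := by
  have hne : x₁ ≠ x₂ := fun e => hx (sub_eq_zero.mpr e)
  have hs : W.slope x₁ x₂ y₁ y₂ = l := by
    rw [Affine.slope_of_X_ne hne, ← hl, mul_div_cancel_right₀ _ hx]
  rw [Affine.Point.add_of_X_ne hne]
  rw [Affine.Point.some.injEq, hs]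
  exact ⟨hx'.symm, hy'.symm⟩

omit [DecidableEq F] in
theorem card_point [Finite F] (W : WeierstrassCurve F) (hW : W.Δ ≠ 0) :
    Nat.card W.toAffine.Point = Nat.card {q : F × F // W.toAffine.Equation q.1 q.2} + 1 := by
  have : W.IsElliptic := ⟨isUnit_iff_ne_zero.mpr hW⟩
  have : W.toAffine.IsElliptic := this
  rw [Nat.card_congr (WeierstrassCurve.Affine.pointEquiv W.toAffine)]
  exact Finite.card_option

instance finite_point [Finite F] (W : WeierstrassCurve F) : Finite W.toAffine.Point := by
  rw [(WeierstrassCurve.Affine.nonsingularPointEquiv W.toAffine).finite_iff]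
  exact inferInstanceAs (Finite (Option _))

end Generic

/-- The short Weierstrass curve `y² = x³ + Ax + B`. -/
abbrev shortW {F : Type*} [Field F] (A B : F) : WeierstrassCurve F := ⟨0, 0, 0, A, B⟩

section Short

variable {F : Type*} [Field F] [DecidableEq F]

omit [DecidableEq F] in
theorem shortW_Δ (A B : F) : (shortW A B).Δ = -16 * (4 * A ^ 3 + 27 * B ^ 2) := by
  simp only [WeierstrassCurve.Δ, WeierstrassCurve.b₂, WeierstrassCurve.b₄, WeierstrassCurve.b₆,
    WeierstrassCurve.b₈]
  ring

omit [DecidableEq F] in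
theorem shortW_equation (A B x y : F) :
    (shortW A B).toAffine.Equation x y ↔ y ^ 2 = x ^ 3 + A * x + B := by
  rw [WeierstrassCurve.Affine.equation_iff]; simp

omit [DecidableEq F] in
theorem shortW_nonsingular {A B x y : F} (hΔ : (shortW A B).Δ ≠ 0)
    (h : y ^ 2 = x ^ 3 + A * x + B) : (shortW A B).toAffine.Nonsingular x y :=
  (WeierstrassCurve.Affine.equation_iff_nonsingular_of_Δ_ne_zero hΔ).mp
    ((shortW_equation A B x y).mpr h)

/-- A root of the cubic gives an even number of points. -/
theorem two_dvd_card_of_root [Finite F] {A B e : F} (hΔ : (shortW A B).Δ ≠ 0)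
    (he : e ^ 3 + A * e + B = 0) : 2 ∣ Nat.card (shortW A B).toAffine.Point := by
  have hns : (shortW A B).toAffine.Nonsingular e 0 := shortW_nonsingular hΔ (by rw [he]; ring)
  have h2 : (2 : ℕ) • (Affine.Point.some e 0 hns) = 0 := by
    rw [two_nsmul]
    apply Affine.Point.add_self_of_Y_eq
    simp [WeierstrassCurve.Affine.negY]
  have hne : Affine.Point.some e 0 hns ≠ 0 := Affine.Point.some_ne_zero _
  have : addOrderOf (Affine.Point.some e 0 hns) = 2 := addOrderOf_eq_prime h2 hne
  rw [← this]
  exact addOrderOf_dvd_natCard _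

/-- If the number of points is even, the cubic has a root. -/
theorem exists_root_of_two_dvd_card [Finite F] (h2F : (2 : F) ≠ 0) {A B : F}
    (h : 2 ∣ Nat.card (shortW A B).toAffine.Point) : ∃ e : F, e ^ 3 + A * e + B = 0 := by
  have : Fact (Nat.Prime 2) := ⟨Nat.prime_two⟩
  obtain ⟨P, hP⟩ := exists_prime_addOrderOf_dvd_card' (G := (shortW A B).toAffine.Point) 2 h
  rcases P with _ | ⟨x, y, hns⟩
  · exfalso
    have : addOrderOf (0 : (shortW A B).toAffine.Point) = 2 := hP
    rw [addOrderOf_zero] at this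
    omega
  · have h2 : (2 : ℕ) • (Affine.Point.some x y hns) = 0 := by
      rw [← hP]; exact addOrderOf_nsmul_eq_zero _
    rw [two_nsmul] at h2
    have hy : y = 0 := by
      by_contra hy0
      have hne : y ≠ (shortW A B).toAffine.negY x y := by
        simp only [WeierstrassCurve.Affine.negY]
        intro e
        apply hy0
        have : 2 * y = 0 := by linear_combination e
        rcases mul_eq_zero.mp this with h | h
        · exact absurd h h2F
        · exact h
      rw [Affine.Point.add_self_of_Y_ne hne] at h2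
      exact Affine.Point.some_ne_zero _ h2
    refine ⟨x, ?_⟩
    have := (shortW_equation A B x y).mp hns.1
    rw [hy] at this
    linear_combination -this

/-- Two distinct roots of the cubic give a number of points divisible by four. -/
theorem four_dvd_card_of_two_roots [Finite F] {A B e r : F}
    (hΔ : (shortW A B).Δ ≠ 0) (he : e ^ 3 + A * e + B = 0) (hr : r ^ 3 + A * r + B = 0)
    (her : e ≠ r) : 4 ∣ Nat.card (shortW A B).toAffine.Point := by
  have hns : (shortW A B).toAffine.Nonsingular e 0 := shortW_nonsingular hΔ (by rw [he]; ring)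
  have hns' : (shortW A B).toAffine.Nonsingular r 0 := shortW_nonsingular hΔ (by rw [hr]; ring)
  set P := Affine.Point.some e 0 hns
  set Q := Affine.Point.some r 0 hns'
  have hP2 : (2 : ℕ) • P = 0 := by
    rw [two_nsmul]
    apply Affine.Point.add_self_of_Y_eq
    simp [WeierstrassCurve.Affine.negY]
  have hQ2 : (2 : ℕ) • Q = 0 := by
    rw [two_nsmul]
    apply Affine.Point.add_self_of_Y_eq
    simp [WeierstrassCurve.Affine.negY]
  have hP0 : P ≠ 0 := Affine.Point.some_ne_zero _
  have hQ0 : Q ≠ 0 := Affine.Point.some_ne_zero _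
  have hPQ : Q ≠ P := by
    intro h
    rw [Affine.Point.some.injEq] at h
    exact her h.1.symm
  have hoP : addOrderOf P = 2 := addOrderOf_eq_prime hP2 hP0
  set H := AddSubgroup.zmultiples P
  have hH : Nat.card H = 2 := by rw [Nat.card_zmultiples, hoP]
  have hcard := AddSubgroup.card_eq_card_quotient_mul_card_addSubgroup H
  have hq : 2 ∣ Nat.card ((shortW A B).toAffine.Point ⧸ H) := by
    have h0 : ((Q : (shortW A B).toAffine.Point ⧸ H)) ≠ 0 := by
      intro h
      rw [QuotientAddGroup.eq_zero_iff] at h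
      have hmem := AddSubgroup.mem_zmultiples_iff.mp h
      obtain ⟨k, hk⟩ := hmem
      rcases Int.even_or_odd k with ⟨j, hj⟩ | ⟨j, hj⟩
      · apply hQ0
        rw [← hk, hj, ← two_mul, mul_comm, mul_zsmul]
        have : (2 : ℤ) • P = 0 := by exact_mod_cast hP2
        rw [this, zsmul_zero]
      · apply hPQ
        rw [← hk, hj, add_zsmul, mul_comm, mul_zsmul, one_zsmul]
        have : (2 : ℤ) • P = 0 := by exact_mod_cast hP2
        rw [this, zsmul_zero, zero_add]
    have h2 : (2 : ℕ) • ((Q : (shortW A B).toAffine.Point ⧸ H)) = 0 := by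
      rw [← QuotientAddGroup.mk_nsmul, hQ2]; rfl
    have : addOrderOf ((Q : (shortW A B).toAffine.Point ⧸ H)) = 2 := addOrderOf_eq_prime h2 h0
    rw [← this]
    exact addOrderOf_dvd_natCard _
  obtain ⟨c, hc⟩ := hq
  rw [hcard, hH, hc]
  exact ⟨c, by ring⟩

/-- If the cubic has a root `e` with `3e² + A = β²` and `3e + 2β = γ²`, there is a point of
order four. -/
theorem four_dvd_card_of_halving [Finite F] (h2F : (2 : F) ≠ 0) {A B e β γ : F}
    (hΔ : (shortW A B).Δ ≠ 0) (he : e ^ 3 + A * e + B = 0) (hβ : 3 * e ^ 2 + A = β ^ 2)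
    (hγ : 3 * e + 2 * β = γ ^ 2) (hβ0 : β ≠ 0) (hγ0 : γ ≠ 0) :
    4 ∣ Nat.card (shortW A B).toAffine.Point := by
  have hns : (shortW A B).toAffine.Nonsingular e 0 := shortW_nonsingular hΔ (by rw [he]; ring)
  have hnsP : (shortW A B).toAffine.Nonsingular (e + β) (β * γ) :=
    shortW_nonsingular hΔ (by
      linear_combination -he - β * hβ - β ^ 2 * hγ)
  set T := Affine.Point.some e 0 hns
  set P := Affine.Point.some (e + β) (β * γ) hnsP
  have hT2 : (2 : ℕ) • T = 0 := by
    rw [two_nsmul]
    apply Affine.Point.add_self_of_Y_eq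
    simp [WeierstrassCurve.Affine.negY]
  have hT0 : T ≠ 0 := Affine.Point.some_ne_zero _
  have hPT : P + P = T := by
    apply add_self_eq (l := γ)
    · simp only [WeierstrassCurve.Affine.negY]
      intro h
      have : 2 * (β * γ) = 0 := by linear_combination h
      rcases mul_eq_zero.mp this with h | h
      · exact h2F h
      · exact mul_ne_zero hβ0 hγ0 h
    · simp only [WeierstrassCurve.Affine.negY]
      linear_combination -hβ - 2 * β * hγ
    · simp only [WeierstrassCurve.Affine.addX]
      linear_combination hγ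
    · simp only [WeierstrassCurve.Affine.addY, WeierstrassCurve.Affine.negY,
        WeierstrassCurve.Affine.addX, WeierstrassCurve.Affine.negAddY]
      linear_combination -γ * hγ
  have hP4 : (4 : ℕ) • P = 0 := by
    have : (4 : ℕ) • P = (2 : ℕ) • (P + P) := by
      rw [← two_nsmul, ← mul_nsmul]
    rw [this, hPT, hT2]
  have hP2 : ¬ (2 : ℕ) • P = 0 := by
    rw [two_nsmul, hPT]; exact hT0
  have : addOrderOf P = 4 := by
    have h4 : (4 : ℕ) = 2 ^ (1 + 1) := by norm_num
    rw [h4]
    apply addOrderOf_eq_prime_pow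
    · simpa using hP2
    · rw [← h4]; exact hP4
  rw [← this]
  exact addOrderOf_dvd_natCard _

end Short

end Pool.Agent.Helper28.Koblitz
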