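import Pool.Agent.Helper28.Koblitz.Reduction

set_option autoImplicit false

namespace Pool.Agent.Helper28.Koblitz

open WeierstrassCurve

section Short

variable {F : Type*} [Field F] [DecidableEq F]

/-- If the number of points is divisible by three, there is a flex `(x, y)`, with tangent slope
`l`. -/
theorem exists_flex_of_three_dvd_card [Finite F] (h2F : (2 : F) ≠ 0) {A B : F}
    (h : 3 ∣ Nat.card (shortW A B).toAffine.Point) :
    ∃ x y l : F, y ^ 2 = x ^ 3 + A * x + B ∧ y ≠ 0 ∧ l ^ 2 = 3 * x ∧
      2 * l * y = 3 * x ^ 2 + A := by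
  have : Fact (Nat.Prime 3) := ⟨Nat.prime_three⟩
  obtain ⟨P, hP⟩ := exists_prime_addOrderOf_dvd_card' (G := (shortW A B).toAffine.Point) 3 h
  rcases P with _ | ⟨x, y, hns⟩
  · exfalso
    have : addOrderOf (0 : (shortW A B).toAffine.Point) = 3 := hP
    rw [addOrderOf_zero] at this
    omega
  · have h3 : (3 : ℕ) • (Affine.Point.some x y hns) = 0 := by
      rw [← hP]; exact addOrderOf_nsmul_eq_zero _
    have hneg : Affine.Point.some x y hns + Affine.Point.some x y hns =
        - Affine.Point.some x y hns := by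
      rw [eq_neg_iff_add_eq_zero, ← h3]
      simp only [succ_nsmul, zero_nsmul, zero_add]
    have hy0 : y ≠ 0 := by
      rintro rfl
      have h2 : Affine.Point.some x 0 hns + Affine.Point.some x 0 hns = 0 := by
        apply Affine.Point.add_self_of_Y_eq
        simp [WeierstrassCurve.Affine.negY]
      rw [h2] at hneg
      have : Affine.Point.some x 0 hns = 0 := by
        rw [← neg_eq_zero]; exact hneg.symm
      exact Affine.Point.some_ne_zero _ this
    have hne : y ≠ (shortW A B).toAffine.negY x y := by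
      simp only [WeierstrassCurve.Affine.negY]
      intro e
      apply hy0
      have : 2 * y = 0 := by linear_combination e
      rcases mul_eq_zero.mp this with h | h
      · exact absurd h h2F
      · exact h
    rw [Affine.Point.add_self_of_Y_ne hne, Affine.Point.neg_some, Affine.Point.some.injEq] at hneg
    refine ⟨x, y, (shortW A B).toAffine.slope x x y y, ?_, hy0, ?_, ?_⟩
    · exact (shortW_equation A B x y).mp hns.1
    · have h1 := hneg.1
      simp only [WeierstrassCurve.Affine.addX] at h1
      linear_combination h1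
    · rw [Affine.slope_of_Y_ne rfl hne]
      have hyy : y - (shortW A B).toAffine.negY x y ≠ 0 := sub_ne_zero.mpr hne
      have hyy' : y - (shortW A B).toAffine.negY x y = 2 * y := by
        simp only [WeierstrassCurve.Affine.negY]; ring
      rw [hyy'] at hyy ⊢
      field_simp
      ring

/-- A flex gives a point of order three. -/
theorem two_nsmul_flex {A B x y l : F} (h2F : (2 : F) ≠ 0) (hΔ : (shortW A B).Δ ≠ 0)
    (hy : y ^ 2 = x ^ 3 + A * x + B) (hy0 : y ≠ 0) (hl : l ^ 2 = 3 * x)
    (hl2 : 2 * l * y = 3 * x ^ 2 + A) :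
    Affine.Point.some x y (shortW_nonsingular hΔ hy) +
      Affine.Point.some x y (shortW_nonsingular hΔ hy) =
    - Affine.Point.some x y (shortW_nonsingular hΔ hy) := by
  rw [Affine.Point.neg_some]
  apply add_self_eq (l := l)
  · simp only [WeierstrassCurve.Affine.negY]
    intro h
    have : 2 * y = 0 := by linear_combination h
    rcases mul_eq_zero.mp this with h | h
    · exact h2F h
    · exact hy0 h
  · simp only [WeierstrassCurve.Affine.negY]
    linear_combination hl2
  · simp only [WeierstrassCurve.Affine.addX]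
    linear_combination -hl
  · simp only [WeierstrassCurve.Affine.addY, WeierstrassCurve.Affine.negY,
      WeierstrassCurve.Affine.addX, WeierstrassCurve.Affine.negAddY]
    linear_combination l * hl

theorem addOrderOf_flex {A B x y l : F} (h2F : (2 : F) ≠ 0) (hΔ : (shortW A B).Δ ≠ 0)
    (hy : y ^ 2 = x ^ 3 + A * x + B) (hy0 : y ≠ 0) (hl : l ^ 2 = 3 * x)
    (hl2 : 2 * l * y = 3 * x ^ 2 + A) :
    addOrderOf (Affine.Point.some x y (shortW_nonsingular hΔ hy)) = 3 := by
  have : Fact (Nat.Prime 3) := ⟨Nat.prime_three⟩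
  apply addOrderOf_eq_prime
  · have h := two_nsmul_flex h2F hΔ hy hy0 hl hl2
    rw [succ_nsmul, two_nsmul, h, neg_add_cancel]
  · exact Affine.Point.some_ne_zero _

/-- Two flexes with distinct abscissae give a number of points divisible by nine. -/
theorem nine_dvd_card_of_two_flexes [Finite F] {A B x y l x' y' l' : F} (h2F : (2 : F) ≠ 0)
    (hΔ : (shortW A B).Δ ≠ 0)
    (hy : y ^ 2 = x ^ 3 + A * x + B) (hy0 : y ≠ 0) (hl : l ^ 2 = 3 * x)
    (hl2 : 2 * l * y = 3 * x ^ 2 + A)
    (hy' : y' ^ 2 = x' ^ 3 + A * x' + B) (hy0' : y' ≠ 0) (hl' : l' ^ 2 = 3 * x')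
    (hl2' : 2 * l' * y' = 3 * x' ^ 2 + A) (hxx : x ≠ x') :
    9 ∣ Nat.card (shortW A B).toAffine.Point := by
  have : Fact (Nat.Prime 3) := ⟨Nat.prime_three⟩
  have hoP := addOrderOf_flex h2F hΔ hy hy0 hl hl2
  have hoQ := addOrderOf_flex h2F hΔ hy' hy0' hl' hl2'
  set P := Affine.Point.some x y (shortW_nonsingular hΔ hy) with hPdef
  set Q := Affine.Point.some x' y' (shortW_nonsingular hΔ hy') with hQdef
  have hP3 : (3 : ℕ) • P = 0 := by rw [← hoP]; exact addOrderOf_nsmul_eq_zero _
  have hQ3 : (3 : ℕ) • Q = 0 := by rw [← hoQ]; exact addOrderOf_nsmul_eq_zero _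
  have hQ0 : Q ≠ 0 := Affine.Point.some_ne_zero _
  have hQP : Q ≠ P := by
    intro h
    rw [hQdef, hPdef, Affine.Point.some.injEq] at h
    exact hxx h.1.symm
  have hQP' : Q ≠ -P := by
    intro h
    rw [hQdef, hPdef, Affine.Point.neg_some, Affine.Point.some.injEq] at h
    exact hxx h.1.symm
  set H := AddSubgroup.zmultiples P
  have hH : Nat.card H = 3 := by rw [Nat.card_zmultiples, hoP]
  have hcard := AddSubgroup.card_eq_card_quotient_mul_card_addSubgroup H
  have hP3' : (3 : ℤ) • P = 0 := by exact_mod_cast hP3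
  have hq : 3 ∣ Nat.card ((shortW A B).toAffine.Point ⧸ H) := by
    have h0 : ((Q : (shortW A B).toAffine.Point ⧸ H)) ≠ 0 := by
      intro h
      rw [QuotientAddGroup.eq_zero_iff] at h
      have hmem := AddSubgroup.mem_zmultiples_iff.mp h
      obtain ⟨k, hk⟩ := hmem
      have hk3 : k = 3 * (k / 3) + k % 3 := (Int.mul_ediv_add_emod k 3).symm
      have hkk : k • P = (k % 3) • P := by
        conv_lhs => rw [hk3]
        rw [add_zsmul, mul_comm, mul_zsmul, hP3', zsmul_zero, zero_add]
      have hr : k % 3 = 0 ∨ k % 3 = 1 ∨ k % 3 = 2 := by omega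
      rw [hkk] at hk
      rcases hr with h | h | h
      · rw [h, zero_zsmul] at hk; exact hQ0 hk.symm
      · rw [h, one_zsmul] at hk; exact hQP hk.symm
      · rw [h] at hk
        apply hQP'
        rw [← hk, eq_neg_iff_add_eq_zero]
        have : (2 : ℤ) • P + P = (3 : ℤ) • P := by
          rw [show (3 : ℤ) = 2 + 1 by norm_num, add_zsmul, one_zsmul]
        rw [this, hP3']
    have h2 : (3 : ℕ) • ((Q : (shortW A B).toAffine.Point ⧸ H)) = 0 := by
      rw [← QuotientAddGroup.mk_nsmul, hQ3]; rfl
    have : addOrderOf ((Q : (shortW A B).toAffine.Point ⧸ H)) = 3 := addOrderOf_eq_prime h2 h0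
    rw [← this]
    exact addOrderOf_dvd_natCard _
  obtain ⟨c, hc⟩ := hq
  rw [hcard, hH, hc]
  exact ⟨c, by ring⟩

end Short

end Pool.Agent.Helper28.Koblitz
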