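import Pool.Agent.Helper28.Koblitz.Nonsplit

set_option autoImplicit false

namespace Pool.Agent.Helper28.Koblitz

open WeierstrassCurve

section Core

variable {F : Type*} [Field F]

/-- The algebraic identity behind the quadratic character of the normaliser of the nonsplit
Cartan subgroup modulo three. -/
theorem isSquare_of_flex (h3 : (3 : F) ≠ 0) {a w y n : F} (hw : w ≠ 0) (hy : y ≠ 0)
    (h54 : 54 * y = a ^ 3 - w ^ 3) (hn : n * w * (2 * y) = a * (a ^ 3 - 48 * y))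
    (h2 : (2 : F) ≠ 0) :
    IsSquare (n ^ 2 + 12 * n + 144) := by
  have h54' : (54 : F) ≠ 0 := by
    have : (54 : F) = 2 * 3 ^ 3 := by norm_num
    rw [this]; exact mul_ne_zero h2 (pow_ne_zero _ h3)
  have hD : w * (54 * y) ≠ 0 := mul_ne_zero hw (mul_ne_zero h54' hy)
  have hnD : n * (w * (54 * y)) = 3 * a * (a ^ 3 + 8 * w ^ 3) := by
    linear_combination 27 * hn + (-24 * a) * h54
  refine ⟨3 * (a ^ 4 + 2 * a ^ 3 * w + 6 * a ^ 2 * w ^ 2 - 4 * a * w ^ 3 + 4 * w ^ 4) /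
    (w * (54 * y)), ?_⟩
  rw [div_mul_div_comm, eq_div_iff (mul_ne_zero hD hD)]
  have h1 : (n ^ 2 + 12 * n + 144) * (w * (54 * y) * (w * (54 * y))) =
      (n * (w * (54 * y))) ^ 2 + 12 * (n * (w * (54 * y))) * (w * (54 * y)) +
        144 * (w * (54 * y)) ^ 2 := by ring
  rw [h1, hnD, h54]
  ring

/-- The coordinates of a second flex. -/
theorem second_flex (h2 : (2 : F) ≠ 0) (h3 : (3 : F) ≠ 0) {A B x y l a w ρ : F}
    (ha : a = 2 * l) (hy : y ^ 2 = x ^ 3 + A * x + B) (hl : l ^ 2 = 3 * x)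
    (hl2 : 2 * l * y = 3 * x ^ 2 + A) (hρ : ρ ^ 2 = -3) (h54 : 54 * y = a ^ 3 - w ^ 3) :
    (-ρ * w * (a ^ 2 + a * w + w ^ 2) / 54) ^ 2 =
      (-(a + 2 * w) ^ 2 / 36) ^ 3 + A * (-(a + 2 * w) ^ 2 / 36) + B ∧
    (ρ * (a + 2 * w) / 6) ^ 2 = 3 * (-(a + 2 * w) ^ 2 / 36) ∧
    2 * (ρ * (a + 2 * w) / 6) * (-ρ * w * (a ^ 2 + a * w + w ^ 2) / 54) =
      3 * (-(a + 2 * w) ^ 2 / 36) ^ 2 + A := by
  have h54' : (54 : F) ≠ 0 := by
    have : (54 : F) = 2 * 3 ^ 3 := by norm_num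
    rw [this]; exact mul_ne_zero h2 (pow_ne_zero _ h3)
  have h36' : (36 : F) ≠ 0 := by
    have : (36 : F) = 2 ^ 2 * 3 ^ 2 := by norm_num
    rw [this]; exact mul_ne_zero (pow_ne_zero _ h2) (pow_ne_zero _ h3)
  have h12' : (12 : F) ≠ 0 := by
    have : (12 : F) = 2 ^ 2 * 3 := by norm_num
    rw [this]; exact mul_ne_zero (pow_ne_zero _ h2) h3
  have h6' : (6 : F) ≠ 0 := by
    have : (6 : F) = 2 * 3 := by norm_num
    rw [this]; exact mul_ne_zero h2 h3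
  have hl' : l = a / 2 := by rw [ha]; field_simp
  have hx : x = a ^ 2 / 12 := by
    rw [eq_div_iff h12', ha]
    linear_combination -4 * hl
  have hyv : y = (a ^ 3 - w ^ 3) / 54 := by
    rw [eq_div_iff h54']; linear_combination h54
  have hA : A = 2 * (a / 2) * ((a ^ 3 - w ^ 3) / 54) - 3 * (a ^ 2 / 12) ^ 2 := by
    rw [← hl', ← hyv, ← hx]; linear_combination -hl2
  have hB : B = y ^ 2 - x ^ 3 - A * x := by linear_combination -hy
  rw [hB, hA, hyv, hx]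
  have e1 : (54 : F) = 2 * 3 ^ 3 := by norm_num
  have e2 : (36 : F) = 2 ^ 2 * 3 ^ 2 := by norm_num
  have e3 : (12 : F) = 2 ^ 2 * 3 := by norm_num
  have e4 : (6 : F) = 2 * 3 := by norm_num
  rw [e1, e2, e3, e4]
  refine ⟨?_, ?_, ?_⟩
  · field_simp
    linear_combination (16 * w ^ 2 * (a ^ 2 + a * w + w ^ 2) ^ 2) * hρ
  · field_simp
    linear_combination ((a + 2 * w) ^ 2) * hρ
  · field_simp
    linear_combination (-8 * w * (a ^ 3 + 3 * a ^ 2 * w + 3 * a * w ^ 2 + 2 * w ^ 3)) * hρ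

end Core

/-- Let `E` have good reduction at `p > 3`, with `j(E) = n³ ≠ 0` modulo `p`. If `3` divides the
number of points modulo `p`, then `n² + 12 n + 144` is a square modulo `p`, and if moreover `-3`
is a square modulo `p`, then `9` divides the number of points. -/
theorem nonsplit_three (E : WeierstrassCurve ℤ) {p : ℕ} [Fact p.Prime] (h2 : p ≠ 2)
    (h3 : p ≠ 3) (hgood : ¬ (((p : ℕ) : ℤ) ∣ E.Δ)) {n : ZMod p} (hn : n ≠ 0)
    (hj : (E.c₄ : ZMod p) ^ 3 = n ^ 3 * (E.Δ : ZMod p)) (h3N : 3 ∣ numPts E p) :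
    IsSquare (n ^ 2 + 12 * n + 144) ∧ (IsSquare (-3 : ZMod p) → 9 ∣ numPts E p) := by
  classical
  have hp : p.Prime := Fact.out
  have e2 := two_ne_zero_zmod hp h2
  have e3 := three_ne_zero_zmod hp h3
  have hdisc := disc_ne_zero E h2 h3 hgood
  have hΔ := shortW_Δ_ne_zero e2 hdisc
  have hcard := numPts_eq_card E h2 h3 hgood
  have hΔ0 : (E.Δ : ZMod p) ≠ 0 := by
    rw [Ne, ZMod.intCast_zmod_eq_zero_iff_dvd]; exact hgood
  have hc4 : (E.c₄ : ZMod p) ≠ 0 := by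
    intro h
    rw [h] at hj
    have : n ^ 3 * (E.Δ : ZMod p) = 0 := by rw [← hj]; ring
    exact mul_ne_zero (pow_ne_zero 3 hn) hΔ0 this
  have hdΔ := disc_short E 1 p
  simp only [Int.cast_one, one_pow, mul_one] at hdΔ
  rw [hcard] at h3N ⊢
  set A : ZMod p := -27 * (E.c₄ : ZMod p) with hA
  set B : ZMod p := -54 * (E.c₆ : ZMod p) with hB
  obtain ⟨x, y, l, hy, hy0, hl, hl2⟩ := exists_flex_of_three_dvd_card e2 h3N
  obtain ⟨a, ha⟩ : ∃ a : ZMod p, a = 2 * l := ⟨_, rfl⟩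
  have h54' : (54 : ZMod p) ≠ 0 := by
    have : (54 : ZMod p) = 2 * 3 ^ 3 := by norm_num
    rw [this]; exact mul_ne_zero e2 (pow_ne_zero _ e3)
  have h12x : 12 * x = a ^ 2 := by rw [ha]; linear_combination -4 * hl
  have hAx : A = a * y - 3 * x ^ 2 := by rw [ha]; linear_combination -hl2
  have hC : a * (a ^ 3 - 48 * y) = 1296 * (E.c₄ : ZMod p) := by
    have h1 : a * (a ^ 3 - 48 * y) = -48 * A := by
      rw [hAx]; linear_combination (-(a ^ 2) - 12 * x) * h12x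
    rw [h1, hA]; ring
  have hΔy : 6 ^ 12 * (E.Δ : ZMod p) = 8 * y ^ 3 * (a ^ 3 - 54 * y) := by
    have hBx : B = y ^ 2 - x ^ 3 - A * x := by linear_combination -hy
    rw [hBx, hAx] at hdΔ
    linear_combination 16 * hdΔ + (72 * a * y ^ 3 - 144 * x ^ 2 * y ^ 2) * h12x
  have hny : n * (2 * y) ≠ 0 := mul_ne_zero hn (mul_ne_zero e2 hy0)
  obtain ⟨w, hw⟩ : ∃ w : ZMod p, n * w * (2 * y) = a * (a ^ 3 - 48 * y) :=
    ⟨a * (a ^ 3 - 48 * y) / (n * (2 * y)), by field_simp⟩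
  have hw0 : w ≠ 0 := by
    rintro rfl
    have : (1296 : ZMod p) * (E.c₄ : ZMod p) = 0 := by rw [← hC, ← hw]; ring
    have h1296 : (1296 : ZMod p) ≠ 0 := by
      have : (1296 : ZMod p) = 2 ^ 4 * 3 ^ 4 := by norm_num
      rw [this]; exact mul_ne_zero (pow_ne_zero _ e2) (pow_ne_zero _ e3)
    exact mul_ne_zero h1296 hc4 this
  have h54 : 54 * y = a ^ 3 - w ^ 3 := by
    have h1 : (n * (2 * y)) ^ 3 * (w ^ 3 - (a ^ 3 - 54 * y)) = 0 := by
      have h2 : (n * (2 * y)) ^ 3 * w ^ 3 = 6 ^ 12 * (n ^ 3 * (E.Δ : ZMod p)) := by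
        have : (n * (2 * y)) ^ 3 * w ^ 3 = (n * w * (2 * y)) ^ 3 := by ring
        rw [this, hw, hC, ← hj]; ring
      linear_combination h2 + n ^ 3 * hΔy
    rcases mul_eq_zero.mp h1 with h | h
    · exact absurd h (pow_ne_zero 3 hny)
    · linear_combination h
  refine ⟨isSquare_of_flex e3 hw0 hy0 h54 hw e2, ?_⟩
  rintro ⟨ρ, hρ'⟩
  have hρ : ρ ^ 2 = -3 := by rw [hρ']; ring
  obtain ⟨f1, f2, f3⟩ := second_flex e2 e3 ha hy hl hl2 hρ h54
  have hN : a ^ 2 + a * w + w ^ 2 ≠ 0 := by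
    intro h
    have : 54 * y = 0 := by rw [h54]; linear_combination (a - w) * h
    exact mul_ne_zero h54' hy0 this
  have hρ0 : ρ ≠ 0 := by
    rintro rfl
    apply e3
    linear_combination hρ
  refine nine_dvd_card_of_two_flexes e2 hΔ hy hy0 hl hl2 f1 ?_ f2 f3 ?_
  · exact div_ne_zero (mul_ne_zero (mul_ne_zero (neg_ne_zero.mpr hρ0) hw0) hN) h54'
  · intro h
    have h36' : (36 : ZMod p) ≠ 0 := by
      have : (36 : ZMod p) = 2 ^ 2 * 3 ^ 2 := by norm_num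
      rw [this]; exact mul_ne_zero (pow_ne_zero _ e2) (pow_ne_zero _ e3)
    rw [eq_div_iff h36'] at h
    have h4 : (4 : ZMod p) ≠ 0 := by
      have : (4 : ZMod p) = 2 ^ 2 := by norm_num
      rw [this]; exact pow_ne_zero _ e2
    apply mul_ne_zero h4 hN
    linear_combination h - 3 * h12x


end Pool.Agent.Helper28.Koblitz
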