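import Pool.Agent.Helper28.Koblitz.Group
import Pool.Agent.Helper28.Koblitz.Cubic

set_option autoImplicit false

namespace Pool.Agent.Helper28.Koblitz

open WeierstrassCurve

/-- The reduction mod `p` of the quadratic twist, as a short Weierstrass curve over `ZMod p`. -/
theorem quadTwist_map (E : WeierstrassCurve ℤ) (D : ℤ) (p : ℕ) [Fact p.Prime] :
    (quadTwist E D).map (Int.castRingHom (ZMod p)) =
      shortW (-27 * (E.c₄ : ZMod p) * (D : ZMod p) ^ 2) (-54 * (E.c₆ : ZMod p) * (D : ZMod p) ^ 3) := by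
  ext <;> simp [quadTwist, WeierstrassCurve.map]

theorem six_pow_mul_disc (E : WeierstrassCurve ℤ) :
    4 * (-27 * E.c₄) ^ 3 + 27 * (-54 * E.c₆) ^ 2 = -(2 ^ 8 * 3 ^ 12 * E.Δ) := by
  have h := E.c_relation
  linear_combination 78732 * h

theorem disc_short (E : WeierstrassCurve ℤ) (D : ℤ) (p : ℕ) :
    4 * (-27 * (E.c₄ : ZMod p) * (D : ZMod p) ^ 2) ^ 3 +
      27 * (-54 * (E.c₆ : ZMod p) * (D : ZMod p) ^ 3) ^ 2 =
      -(2 ^ 8 * 3 ^ 12 * (E.Δ : ZMod p)) * (D : ZMod p) ^ 6 := by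
  have h := congrArg (Int.cast : ℤ → ZMod p) (six_pow_mul_disc E)
  push_cast at h
  linear_combination (D : ZMod p) ^ 6 * h

theorem disc_short_ne_zero (E : WeierstrassCurve ℤ) {D : ℤ} {p : ℕ} [Fact p.Prime] (h2 : p ≠ 2)
    (h3 : p ≠ 3) (hgood : ¬ (((p : ℕ) : ℤ) ∣ E.Δ)) (hD : (D : ZMod p) ≠ 0) :
    4 * (-27 * (E.c₄ : ZMod p) * (D : ZMod p) ^ 2) ^ 3 +
      27 * (-54 * (E.c₆ : ZMod p) * (D : ZMod p) ^ 3) ^ 2 ≠ 0 := by
  have hp : p.Prime := Fact.out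
  rw [disc_short]
  have e2 := two_ne_zero_zmod hp h2
  have e3 := three_ne_zero_zmod hp h3
  have hΔ : (E.Δ : ZMod p) ≠ 0 := by
    rw [Ne, ZMod.intCast_zmod_eq_zero_iff_dvd]; exact hgood
  exact mul_ne_zero (neg_ne_zero.mpr (mul_ne_zero (mul_ne_zero (pow_ne_zero _ e2)
    (pow_ne_zero _ e3)) hΔ)) (pow_ne_zero _ hD)

theorem shortW_Δ_ne_zero {F : Type*} [Field F] {A B : F} (h2 : (2 : F) ≠ 0)
    (h : 4 * A ^ 3 + 27 * B ^ 2 ≠ 0) : (shortW A B).Δ ≠ 0 := by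
  rw [shortW_Δ]
  have : (16 : F) = 2 ^ 4 := by norm_num
  refine mul_ne_zero (neg_ne_zero.mpr ?_) h
  rw [this]; exact pow_ne_zero _ h2

/-- The number of points of a quadratic twist is the order of the group of points of its
reduction. -/
theorem numPts_quadTwist (E : WeierstrassCurve ℤ) {D : ℤ} {p : ℕ} [Fact p.Prime] (h2 : p ≠ 2)
    (h3 : p ≠ 3) (hgood : ¬ (((p : ℕ) : ℤ) ∣ E.Δ)) (hD : (D : ZMod p) ≠ 0) :
    numPts (quadTwist E D) p = Nat.card (shortW (-27 * (E.c₄ : ZMod p) * (D : ZMod p) ^ 2)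
      (-54 * (E.c₆ : ZMod p) * (D : ZMod p) ^ 3)).toAffine.Point := by
  have hp : p.Prime := Fact.out
  have hΔ := shortW_Δ_ne_zero (two_ne_zero_zmod hp h2) (disc_short_ne_zero E h2 h3 hgood hD)
  rw [card_point _ hΔ]
  unfold numPts
  rw [quadTwist_map]

/-- The number of points of `E` modulo `p ≥ 5` is the order of the group of points of
`y² = x³ - 27 c₄ x - 54 c₆` over `ZMod p`. -/
theorem numPts_eq_card (E : WeierstrassCurve ℤ) {p : ℕ} [Fact p.Prime] (h2 : p ≠ 2)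
    (h3 : p ≠ 3) (hgood : ¬ (((p : ℕ) : ℤ) ∣ E.Δ)) :
    numPts E p = Nat.card (shortW (-27 * (E.c₄ : ZMod p))
      (-54 * (E.c₆ : ZMod p))).toAffine.Point := by
  have hp : p.Prime := Fact.out
  rw [← numPts_quadTwist_one E hp h2 h3, numPts_quadTwist E h2 h3 hgood (by simp)]
  simp

theorem disc_ne_zero (E : WeierstrassCurve ℤ) {p : ℕ} [Fact p.Prime] (h2 : p ≠ 2)
    (h3 : p ≠ 3) (hgood : ¬ (((p : ℕ) : ℤ) ∣ E.Δ)) :
    4 * (-27 * (E.c₄ : ZMod p)) ^ 3 + 27 * (-54 * (E.c₆ : ZMod p)) ^ 2 ≠ 0 := by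
  have := disc_short_ne_zero E (D := 1) h2 h3 hgood (by simp)
  simpa using this

theorem isSquare_Δ_iff (E : WeierstrassCurve ℤ) {p : ℕ} [Fact p.Prime] (h2 : p ≠ 2)
    (h3 : p ≠ 3) :
    IsSquare (-(4 * (-27 * (E.c₄ : ZMod p)) ^ 3 + 27 * (-54 * (E.c₆ : ZMod p)) ^ 2)) ↔
      IsSquare (E.Δ : ZMod p) := by
  have hp : p.Prime := Fact.out
  have e2 := two_ne_zero_zmod hp h2
  have e3 := three_ne_zero_zmod hp h3
  have h := disc_short E 1 p
  simp only [Int.cast_one, one_pow, mul_one] at h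
  rw [h]
  have hne : (2 ^ 4 * 3 ^ 6 : ZMod p) ≠ 0 := mul_ne_zero (pow_ne_zero _ e2) (pow_ne_zero _ e3)
  constructor
  · rintro ⟨s, hs⟩
    refine ⟨s / (2 ^ 4 * 3 ^ 6), ?_⟩
    rw [div_mul_div_comm, eq_div_iff (mul_ne_zero hne hne), ← hs]
    ring
  · rintro ⟨s, hs⟩
    refine ⟨2 ^ 4 * 3 ^ 6 * s, ?_⟩
    rw [hs]; ring

/-- If the number of points is odd, then `Δ` is a square modulo `p`. -/
theorem isSquare_of_odd_numPts (E : WeierstrassCurve ℤ) {p : ℕ} [Fact p.Prime] (h2 : p ≠ 2)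
    (h3 : p ≠ 3) (hgood : ¬ (((p : ℕ) : ℤ) ∣ E.Δ)) (hodd : Odd (numPts E p)) :
    IsSquare (E.Δ : ZMod p) := by
  classical
  have hp : p.Prime := Fact.out
  rw [← isSquare_Δ_iff E h2 h3]
  apply isSquare_disc_of_no_root
  intro e he
  have hΔ := shortW_Δ_ne_zero (two_ne_zero_zmod hp h2) (disc_ne_zero E h2 h3 hgood)
  have := two_dvd_card_of_root hΔ he
  rw [← numPts_eq_card E h2 h3 hgood] at this
  rw [← Nat.not_even_iff_odd] at hodd
  exact hodd (even_iff_two_dvd.mpr this)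

/-- If the number of points is `2` modulo `4`, the cubic `x³ - 27 c₄ x - 54 c₆` has exactly one
root `e` modulo `p`, `Δ` is not a square, and `f'(e)` is not a square. -/
theorem exists_unique_root (E : WeierstrassCurve ℤ) {p : ℕ} [Fact p.Prime] (h2 : p ≠ 2)
    (h3 : p ≠ 3) (hgood : ¬ (((p : ℕ) : ℤ) ∣ E.Δ)) (h24 : numPts E p % 4 = 2) :
    ∃ e : ZMod p, e ^ 3 + (-27 * (E.c₄ : ZMod p)) * e + (-54 * (E.c₆ : ZMod p)) = 0 ∧
      (∀ r : ZMod p, r ^ 3 + (-27 * (E.c₄ : ZMod p)) * r + (-54 * (E.c₆ : ZMod p)) = 0 → r = e) ∧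
      ¬ IsSquare (E.Δ : ZMod p) ∧ ¬ IsSquare (3 * e ^ 2 + (-27 * (E.c₄ : ZMod p))) := by
  classical
  have hp : p.Prime := Fact.out
  have e2 := two_ne_zero_zmod hp h2
  have hdisc := disc_ne_zero E h2 h3 hgood
  have hΔ := shortW_Δ_ne_zero e2 hdisc
  have hcard := numPts_eq_card E h2 h3 hgood
  have h4 : ¬ (4 ∣ Nat.card (shortW (-27 * (E.c₄ : ZMod p))
      (-54 * (E.c₆ : ZMod p))).toAffine.Point) := by
    rw [← hcard]; omega
  obtain ⟨e, he⟩ := exists_root_of_two_dvd_card (A := -27 * (E.c₄ : ZMod p))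
    (B := -54 * (E.c₆ : ZMod p)) e2 (by rw [← hcard]; omega)
  have huniq : ∀ r : ZMod p, r ^ 3 + (-27 * (E.c₄ : ZMod p)) * r + (-54 * (E.c₆ : ZMod p)) = 0 →
      r = e := by
    intro r hr
    by_contra hne
    exact h4 (four_dvd_card_of_two_roots hΔ hr he hne)
  refine ⟨e, he, huniq, ?_, ?_⟩
  · intro hsq
    rw [← isSquare_Δ_iff E h2 h3] at hsq
    obtain ⟨r, hr, hre⟩ := exists_other_root_of_isSquare_disc e2 he hdisc hsq
    exact hre (huniq r hr)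
  · intro hsq
    obtain ⟨β, γ, hβ, hγ, hβ0, hγ0⟩ := exists_halving e2 he hdisc huniq hsq
    exact h4 (four_dvd_card_of_halving e2 hΔ he hβ hγ hβ0 hγ0)

end Pool.Agent.Helper28.Koblitz
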