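import Pool.Agent.Helper28.Koblitz.Group

set_option autoImplicit false

namespace Pool.Agent.Helper28.Koblitz

open WeierstrassCurve Filter

section Integral

variable (p : ℕ) [Fact p.Prime]

/-- The ring of `p`-integral rational numbers. -/
def intRat : Subring ℚ where
  carrier := {q | ((q.den : ℕ) : ZMod p) ≠ 0}
  mul_mem' := by
    intro a b ha hb
    obtain ⟨c, hc⟩ := Rat.mul_den_dvd a b
    intro h
    have : ((a.den * b.den : ℕ) : ZMod p) = 0 := by rw [hc]; push_cast; rw [h, zero_mul]
    rw [Nat.cast_mul] at this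
    exact mul_ne_zero ha hb this
  one_mem' := by simp
  add_mem' := by
    intro a b ha hb
    obtain ⟨c, hc⟩ := Rat.add_den_dvd a b
    intro h
    have : ((a.den * b.den : ℕ) : ZMod p) = 0 := by rw [hc]; push_cast; rw [h, zero_mul]
    rw [Nat.cast_mul] at this
    exact mul_ne_zero ha hb this
  zero_mem' := by simp
  neg_mem' := by
    intro a ha
    simpa using ha

theorem mem_intRat {q : ℚ} : q ∈ intRat p ↔ ((q.den : ℕ) : ZMod p) ≠ 0 := Iff.rfl

/-- Reduction modulo `p` of `p`-integral rational numbers. -/
def redHom : intRat p →+* ZMod p where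
  toFun q := ((q : ℚ) : ZMod p)
  map_one' := by simp
  map_mul' a b := Rat.cast_mul_of_ne_zero a.2 b.2
  map_zero' := by simp
  map_add' a b := Rat.cast_add_of_ne_zero a.2 b.2

theorem redHom_apply (q : intRat p) : redHom p q = ((q : ℚ) : ZMod p) := rfl

theorem redHom_ne_zero {q : intRat p} (h : (((q : ℚ).num : ℤ) : ZMod p) ≠ 0) :
    redHom p q ≠ 0 := by
  rw [redHom_apply, Rat.cast_def]
  exact div_ne_zero h q.2

variable {p} (W : WeierstrassCurve ℤ)

/-- The curve over `ℚ`. -/
abbrev overQ : WeierstrassCurve ℚ := W.map (Int.castRingHom ℚ)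

/-- The curve over `ZMod p`. -/
abbrev overF (p : ℕ) : WeierstrassCurve (ZMod p) := W.map (Int.castRingHom (ZMod p))

variable (p) in
theorem map_subtype : (W.map (Int.castRingHom (intRat p))).map (intRat p).subtype = overQ W := by
  rw [WeierstrassCurve.map_map]
  exact congrArg (fun f => W.map f) (RingHom.ext_int _ _)

variable (p) in
theorem map_redHom : (W.map (Int.castRingHom (intRat p))).map (redHom p) = overF W p := by
  rw [WeierstrassCurve.map_map]
  exact congrArg (fun f => W.map f) (RingHom.ext_int _ _)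

variable (p) in
theorem map_subtype' : (W.map (Int.castRingHom (intRat p))).toAffine.map (intRat p).subtype =
    (overQ W).toAffine := map_subtype p W

variable (p) in
theorem map_redHom' : (W.map (Int.castRingHom (intRat p))).toAffine.map (redHom p) =
    (overF W p).toAffine := map_redHom p W

theorem overF_nonsingular (hΔ : (overF W p).Δ ≠ 0) {x y : intRat p}
    (h : (overQ W).toAffine.Nonsingular (x : ℚ) (y : ℚ)) :
    (overF W p).toAffine.Nonsingular (redHom p x) (redHom p y) := by
  rw [← WeierstrassCurve.Affine.equation_iff_nonsingular_of_Δ_ne_zero hΔ]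
  have h1 : (overQ W).toAffine.Equation (x : ℚ) (y : ℚ) := h.1
  rw [← map_subtype p W] at h1
  have h2 : (W.map (Int.castRingHom (intRat p))).toAffine.Equation x y :=
    (WeierstrassCurve.Affine.map_equation (W.map (Int.castRingHom (intRat p))).toAffine
      (f := (intRat p).subtype) (intRat p).subtype_injective x y).mp h1
  have h3 := h2.map (redHom p)
  rw [← map_redHom p W]
  exact h3

/-- Reduction of a sum of two points with distinct reductions of abscissae. -/
theorem red_add_chord (hΔ : (overF W p).Δ ≠ 0) {x₁ y₁ x₂ y₂ x₃ y₃ l : intRat p}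
    (h₁ : (overQ W).toAffine.Nonsingular (x₁ : ℚ) (y₁ : ℚ))
    (h₂ : (overQ W).toAffine.Nonsingular (x₂ : ℚ) (y₂ : ℚ))
    (h₃ : (overQ W).toAffine.Nonsingular (x₃ : ℚ) (y₃ : ℚ))
    (hsum : Affine.Point.some _ _ h₁ + Affine.Point.some _ _ h₂ = Affine.Point.some _ _ h₃)
    (hl : (l : ℚ) = (overQ W).toAffine.slope x₁ x₂ y₁ y₂)
    (hx : redHom p (x₁ - x₂) ≠ 0) :
    Affine.Point.some _ _ (overF_nonsingular W hΔ h₁) +
      Affine.Point.some _ _ (overF_nonsingular W hΔ h₂) =
      Affine.Point.some _ _ (overF_nonsingular W hΔ h₃) := by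
  have hxne : (x₁ : ℚ) ≠ (x₂ : ℚ) := by
    intro h
    apply hx
    have : x₁ - x₂ = 0 := by
      apply Subtype.ext; push_cast; rw [h, sub_self]
    rw [this, map_zero]
  rw [Affine.Point.add_of_X_ne hxne, Affine.Point.some.injEq, ← hl] at hsum
  obtain ⟨hX, hY⟩ := hsum
  rw [← map_subtype p W] at hX hY
  have hX' : (W.map (Int.castRingHom (intRat p))).toAffine.addX x₁ x₂ l = x₃ := by
    apply (intRat p).subtype_injective
    rw [← WeierstrassCurve.Affine.map_addX]; exact hX
  have hY' : (W.map (Int.castRingHom (intRat p))).toAffine.addY x₁ x₂ y₁ l = y₃ := by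
    apply (intRat p).subtype_injective
    rw [← WeierstrassCurve.Affine.map_addY]; exact hY
  have hl' : l * (x₁ - x₂) = y₁ - y₂ := by
    apply (intRat p).subtype_injective
    rw [map_mul, map_sub, map_sub]
    show (l : ℚ) * ((x₁ : ℚ) - (x₂ : ℚ)) = (y₁ : ℚ) - (y₂ : ℚ)
    rw [hl, WeierstrassCurve.Affine.slope_of_X_ne hxne, div_mul_cancel₀]
    exact sub_ne_zero.mpr hxne
  apply add_chord_eq (l := redHom p l)
  · rw [← map_sub]; exact hx
  · rw [← map_sub, ← map_sub, ← map_mul, hl']
  · rw [← hX', ← WeierstrassCurve.Affine.map_addX, map_redHom' p W]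
  · rw [← hY', ← WeierstrassCurve.Affine.map_addY, map_redHom' p W]

/-- Reduction of a double. -/
theorem red_add_self (hΔ : (overF W p).Δ ≠ 0) {x y x₃ y₃ l : intRat p}
    (h : (overQ W).toAffine.Nonsingular (x : ℚ) (y : ℚ))
    (h₃ : (overQ W).toAffine.Nonsingular (x₃ : ℚ) (y₃ : ℚ))
    (hsum : Affine.Point.some _ _ h + Affine.Point.some _ _ h = Affine.Point.some _ _ h₃)
    (hl : (l : ℚ) = (overQ W).toAffine.slope x x y y)
    (hy : redHom p (y - (W.map (Int.castRingHom (intRat p))).toAffine.negY x y) ≠ 0) :
    Affine.Point.some _ _ (overF_nonsingular W hΔ h) +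
      Affine.Point.some _ _ (overF_nonsingular W hΔ h) =
      Affine.Point.some _ _ (overF_nonsingular W hΔ h₃) := by
  have hyne : (y : ℚ) ≠ (overQ W).toAffine.negY (x : ℚ) (y : ℚ) := by
    intro hh
    apply hy
    have : y - (W.map (Int.castRingHom (intRat p))).toAffine.negY x y = 0 := by
      apply (intRat p).subtype_injective
      rw [map_sub, ← WeierstrassCurve.Affine.map_negY, map_subtype' p W, map_zero]
      exact sub_eq_zero.mpr hh
    rw [this, map_zero]
  rw [Affine.Point.add_self_of_Y_ne hyne, Affine.Point.some.injEq, ← hl] at hsum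
  obtain ⟨hX, hY⟩ := hsum
  rw [← map_subtype p W] at hX hY
  have hX' : (W.map (Int.castRingHom (intRat p))).toAffine.addX x x l = x₃ := by
    apply (intRat p).subtype_injective
    rw [← WeierstrassCurve.Affine.map_addX]; exact hX
  have hY' : (W.map (Int.castRingHom (intRat p))).toAffine.addY x x y l = y₃ := by
    apply (intRat p).subtype_injective
    rw [← WeierstrassCurve.Affine.map_addY]; exact hY
  have hl' : l * (y - (W.map (Int.castRingHom (intRat p))).toAffine.negY x y) =
      3 * x ^ 2 + 2 * (W.map (Int.castRingHom (intRat p))).toAffine.a₂ * x +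
      (W.map (Int.castRingHom (intRat p))).toAffine.a₄ -
      (W.map (Int.castRingHom (intRat p))).toAffine.a₁ * y := by
    apply (intRat p).subtype_injective
    rw [map_mul, map_sub, ← WeierstrassCurve.Affine.map_negY, map_subtype' p W]
    have e : (intRat p).subtype l = (l : ℚ) := rfl
    have ex : (intRat p).subtype x = (x : ℚ) := rfl
    have ey : (intRat p).subtype y = (y : ℚ) := rfl
    have h3 : ((3 : intRat p) : ℚ) = 3 := map_ofNat (intRat p).subtype 3
    have h2 : ((2 : intRat p) : ℚ) = 2 := map_ofNat (intRat p).subtype 2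
    rw [e, hl, ex, ey, WeierstrassCurve.Affine.slope_of_Y_ne rfl hyne, div_mul_cancel₀]
    · simp [h3, h2]
    · exact sub_ne_zero.mpr hyne
  apply add_self_eq (l := redHom p l)
  · rw [← map_redHom' p W, WeierstrassCurve.Affine.map_negY, ← map_sub]; exact hy
  · have := congrArg (redHom p) hl'
    rw [map_mul, map_sub (redHom p) y, ← WeierstrassCurve.Affine.map_negY, map_redHom' p W] at this
    rw [this]
    have h3 : redHom p 3 = 3 := map_ofNat (redHom p) 3
    have h2 : redHom p 2 = 2 := map_ofNat (redHom p) 2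
    simp [h3, h2]
  · rw [← hX', ← WeierstrassCurve.Affine.map_addX, map_redHom' p W]
  · rw [← hY', ← WeierstrassCurve.Affine.map_addY, map_redHom' p W]

end Integral

theorem eventually_mem_intRat (q : ℚ) :
    ∀ᶠ p : ℕ in cofinite, ∀ [Fact p.Prime], q ∈ intRat p := by
  rw [Filter.eventually_cofinite]
  refine (Set.finite_Iic q.den).subset ?_
  intro p hp
  simp only [Set.mem_ofPred_eq, not_forall] at hp
  obtain ⟨hpp, hq⟩ := hp
  rw [mem_intRat, not_not, ZMod.natCast_eq_zero_iff] at hq
  exact Nat.le_of_dvd q.den_pos hq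

theorem eventually_num_ne_zero {q : ℚ} (hq : q ≠ 0) :
    ∀ᶠ p : ℕ in cofinite, ∀ [Fact p.Prime], ((q.num : ℤ) : ZMod p) ≠ 0 := by
  rw [Filter.eventually_cofinite]
  refine (Set.finite_Iic q.num.natAbs).subset ?_
  intro p hp
  simp only [Set.mem_ofPred_eq, not_forall] at hp
  obtain ⟨hpp, hq'⟩ := hp
  rw [not_not, ZMod.intCast_zmod_eq_zero_iff_dvd] at hq'
  exact Nat.le_of_dvd (Int.natAbs_pos.mpr (Rat.num_ne_zero.mpr hq)) (Int.natCast_dvd.mp hq')

/-- The abscissa of a point (zero for the point at infinity). -/
def xc {F : Type*} [Field F] {W : WeierstrassCurve.Affine F} : W.Point → F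
  | .zero => 0
  | .some x _ _ => x

/-- The ordinate of a point (zero for the point at infinity). -/
def yc {F : Type*} [Field F] {W : WeierstrassCurve.Affine F} : W.Point → F
  | .zero => 0
  | .some _ y _ => y

theorem exists_eq_some {F : Type*} [Field F] {W : WeierstrassCurve.Affine F} {P : W.Point}
    (hP : P ≠ 0) : ∃ h : W.Nonsingular (xc P) (yc P), P = Affine.Point.some (xc P) (yc P) h := by
  rcases P with _ | ⟨x, y, h⟩
  · exact absurd rfl hP
  · exact ⟨h, rfl⟩

/-- **Reduction of torsion points.** If `P` is a rational point of order `k ≥ 3` then, for almost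
all primes `p`, the reduction of the curve modulo `p` has a point of order `k`. -/
theorem eventually_exists_addOrderOf (W : WeierstrassCurve ℤ) (P : (overQ W).toAffine.Point)
    (k : ℕ) (hk : 3 ≤ k) (hP : addOrderOf P = k) :
    ∀ᶠ p : ℕ in cofinite, ∀ [Fact p.Prime], (overF W p).Δ ≠ 0 →
      ∃ Q : (overF W p).toAffine.Point, addOrderOf Q = k := by
  have hne : ∀ i : ℕ, ¬ k ∣ i → i • P ≠ 0 := by
    intro i hi h
    exact hi (hP ▸ addOrderOf_dvd_of_nsmul_eq_zero h)
  -- conditions on `p`
  have c1 : ∀ᶠ p : ℕ in cofinite, ∀ i ∈ Finset.range k, ∀ [Fact p.Prime],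
      xc (i • P) ∈ intRat p ∧ yc (i • P) ∈ intRat p ∧
      (overQ W).toAffine.slope (xc (i • P)) (xc P) (yc (i • P)) (yc P) ∈ intRat p := by
    rw [Filter.eventually_all_finset]
    intro i _
    filter_upwards [eventually_mem_intRat (xc (i • P)), eventually_mem_intRat (yc (i • P)),
      eventually_mem_intRat ((overQ W).toAffine.slope (xc (i • P)) (xc P) (yc (i • P)) (yc P))]
      with p h1 h2 h3
    intro _
    exact ⟨h1, h2, h3⟩
  have c2 : ∀ᶠ p : ℕ in cofinite, ∀ i ∈ Finset.range k, ∀ [Fact p.Prime], 2 ≤ i → i + 2 ≤ k →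
      (((xc (i • P) - xc P).num : ℤ) : ZMod p) ≠ 0 := by
    rw [Filter.eventually_all_finset]
    intro i _
    by_cases hi : 2 ≤ i ∧ i + 2 ≤ k
    · have hx : xc (i • P) - xc P ≠ 0 := by
        intro h
        have hx : xc (i • P) = xc P := sub_eq_zero.mp h
        have hi0 : i • P ≠ 0 := hne i (fun hd => by
          have := Nat.le_of_dvd (by omega) hd; omega)
        have hP0 : P ≠ 0 := by
          have := hne 1 (fun hd => by have := Nat.le_of_dvd (by omega) hd; omega)
          simpa using this
        obtain ⟨h1, e1⟩ := exists_eq_some hi0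
        obtain ⟨h2, e2⟩ := exists_eq_some hP0
        rcases (Affine.Point.X_eq_iff (h₁ := h1) (h₂ := h2)).mp hx with h3 | h3
        · rw [← e1, ← e2] at h3
          have : (i - 1) • P = 0 := by
            have : i • P = (i - 1) • P + P := by
              conv_lhs => rw [show i = (i - 1) + 1 by omega, add_nsmul, one_nsmul]
            rw [this] at h3
            simpa using h3
          exact hne (i - 1) (fun hd => by have := Nat.le_of_dvd (by omega) hd; omega) this
        · rw [← e1, ← e2] at h3
          have : (i + 1) • P = 0 := by rw [add_nsmul, one_nsmul, h3]; simp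
          exact hne (i + 1) (fun hd => by have := Nat.le_of_dvd (by omega) hd; omega) this
      filter_upwards [eventually_num_ne_zero hx] with p hp
      intro _ _ _
      exact hp
    · filter_upwards with p
      intro _ h1 h2
      exact absurd ⟨h1, h2⟩ hi
  have hP0 : P ≠ 0 := by
    have := hne 1 (fun hd => by have := Nat.le_of_dvd (by omega) hd; omega)
    simpa using this
  have hy : yc P - (overQ W).toAffine.negY (xc P) (yc P) ≠ 0 := by
    intro h
    obtain ⟨h2, e2⟩ := exists_eq_some hP0
    have h3 : P + P = 0 := by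
      rw [e2]
      exact Affine.Point.add_self_of_Y_eq (sub_eq_zero.mp h)
    exact hne 2 (fun hd => by have := Nat.le_of_dvd (by omega) hd; omega) (by rw [two_nsmul, h3])
  filter_upwards [c1, c2, eventually_num_ne_zero hy] with p h1 h2 h3
  intro _ hΔ
  have hk1 : 1 ∈ Finset.range k := Finset.mem_range.mpr (by omega)
  -- coordinates as `p`-integral numbers
  have hx1 : xc P ∈ intRat p := by simpa using (h1 1 hk1).1
  have hy1 : yc P ∈ intRat p := by simpa using (h1 1 hk1).2.1
  obtain ⟨hPns, hPe⟩ := exists_eq_some hP0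
  set x₁ : intRat p := ⟨xc P, hx1⟩ with hx₁
  set y₁ : intRat p := ⟨yc P, hy1⟩ with hy₁
  have hPns' : (overQ W).toAffine.Nonsingular (x₁ : ℚ) (y₁ : ℚ) := hPns
  set Q := Affine.Point.some _ _ (overF_nonsingular W hΔ hPns') with hQ
  -- the multiples
  have key : ∀ i : ℕ, 1 ≤ i → i < k → ∃ (x y : intRat p)
      (h : (overQ W).toAffine.Nonsingular (x : ℚ) (y : ℚ)),
      i • P = Affine.Point.some _ _ h ∧ i • Q = Affine.Point.some _ _ (overF_nonsingular W hΔ h) := by
    intro i hi
    induction i, hi using Nat.le_induction with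
    | base =>
      intro _
      refine ⟨x₁, y₁, hPns', ?_, ?_⟩
      · rw [one_nsmul]; exact hPe
      · rw [one_nsmul]
    | succ i hi ih =>
      intro hik
      obtain ⟨x, y, h, he, hQi⟩ := ih (by omega)
      have hiP : (i + 1) • P ≠ 0 := hne (i + 1) (fun hd => by
        have := Nat.le_of_dvd (by omega) hd; omega)
      obtain ⟨hns3, he3⟩ := exists_eq_some hiP
      have hmem := h1 (i + 1) (Finset.mem_range.mpr hik)
      have hmem' := h1 i (Finset.mem_range.mpr (by omega))
      set x₃ : intRat p := ⟨xc ((i + 1) • P), hmem.1⟩ with hx₃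
      set y₃ : intRat p := ⟨yc ((i + 1) • P), hmem.2.1⟩ with hy₃
      have hxi : xc (i • P) = (x : ℚ) := by rw [he]; rfl
      have hyi : yc (i • P) = (y : ℚ) := by rw [he]; rfl
      set l : intRat p := ⟨_, hmem'.2.2⟩ with hl
      have hns3' : (overQ W).toAffine.Nonsingular (x₃ : ℚ) (y₃ : ℚ) := hns3
      have hsum : Affine.Point.some _ _ h + Affine.Point.some _ _ hPns' =
          Affine.Point.some _ _ hns3' := by
        rw [← he]
        have : Affine.Point.some _ _ hPns' = P := hPe.symm
        rw [this]
        have : i • P + P = (i + 1) • P := by rw [add_nsmul, one_nsmul]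
        rw [this]; exact he3
      refine ⟨x₃, y₃, hns3', he3, ?_⟩
      rw [add_nsmul, one_nsmul, hQi, hQ]
      rcases Nat.lt_or_ge i 2 with hi2 | hi2
      · -- doubling
        have hi1 : i = 1 := by omega
        subst hi1
        have hxx : x = x₁ := by
          apply Subtype.ext
          show (x : ℚ) = xc P
          rw [← hxi, one_nsmul]
        have hyy : y = y₁ := by
          apply Subtype.ext
          show (y : ℚ) = yc P
          rw [← hyi, one_nsmul]
        subst hxx
        subst hyy
        apply red_add_self W hΔ hPns' hns3' hsum (l := l)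
        · show (overQ W).toAffine.slope (xc (1 • P)) (xc P) (yc (1 • P)) (yc P) = _
          rw [one_nsmul]
        · apply redHom_ne_zero
          have e4 : ((y₁ - (W.map (Int.castRingHom (intRat p))).toAffine.negY x₁ y₁ :
              intRat p) : ℚ) = yc P - (overQ W).toAffine.negY (xc P) (yc P) := by
            have := WeierstrassCurve.Affine.map_negY
              (W' := (W.map (Int.castRingHom (intRat p))).toAffine) (intRat p).subtype x₁ y₁
            rw [map_subtype' p W] at this
            have e5 : (((W.map (Int.castRingHom (intRat p))).toAffine.negY x₁ y₁ :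
              intRat p) : ℚ) = (overQ W).toAffine.negY (xc P) (yc P) := this.symm
            rw [AddSubgroupClass.coe_sub, e5]
          rw [e4]; exact h3
      · apply red_add_chord W hΔ h hPns' hns3' hsum (l := l)
        · show (overQ W).toAffine.slope (xc (i • P)) (xc P) (yc (i • P)) (yc P) = _
          rw [hxi, hyi]
        · apply redHom_ne_zero
          have e4 : ((x - x₁ : intRat p) : ℚ) = xc (i • P) - xc P := by
            rw [hxi]; rfl
          rw [e4]
          exact h2 i (Finset.mem_range.mpr (by omega)) hi2 (by omega)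
  refine ⟨Q, ?_⟩
  -- `k • Q = 0`
  obtain ⟨x, y, h, he, hQi⟩ := key (k - 1) (by omega) (by omega)
  have hneg : (k - 1) • P = -P := by
    have : (k - 1) • P + P = 0 := by
      have : (k - 1) • P + P = k • P := by
        conv_rhs => rw [show k = (k - 1) + 1 by omega, add_nsmul, one_nsmul]
      rw [this, ← hP, addOrderOf_nsmul_eq_zero]
    exact eq_neg_of_add_eq_zero_left this
  have hkQ : k • Q = 0 := by
    have e1 : k • Q = (k - 1) • Q + Q := by
      conv_lhs => rw [show k = (k - 1) + 1 by omega, add_nsmul, one_nsmul]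
    rw [e1, hQi, hQ]
    rw [he, hPe, Affine.Point.neg_some, Affine.Point.some.injEq] at hneg
    apply Affine.Point.add_of_Y_eq
    · have : x = x₁ := Subtype.ext hneg.1
      rw [this]
    · have hyy : (intRat p).subtype y = (intRat p).subtype
          ((W.map (Int.castRingHom (intRat p))).toAffine.negY x₁ y₁) := by
        have := WeierstrassCurve.Affine.map_negY
          (W' := (W.map (Int.castRingHom (intRat p))).toAffine) (intRat p).subtype x₁ y₁
        rw [map_subtype' p W] at this
        rw [← this]
        exact hneg.2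
      have hyy' := (intRat p).subtype_injective hyy
      rw [hyy', ← WeierstrassCurve.Affine.map_negY, map_redHom' p W]
  have hdvd : addOrderOf Q ∣ k := addOrderOf_dvd_of_nsmul_eq_zero hkQ
  by_contra hcon
  have hpos : 0 < addOrderOf Q := Nat.pos_of_dvd_of_pos hdvd (by omega)
  have hlt : addOrderOf Q < k := lt_of_le_of_ne (Nat.le_of_dvd (by omega) hdvd) hcon
  obtain ⟨x', y', h', -, hQ'⟩ := key (addOrderOf Q) hpos hlt
  rw [addOrderOf_nsmul_eq_zero] at hQ'
  exact Affine.Point.some_ne_zero _ hQ'.symm

end Pool.Agent.Helper28.Koblitz
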