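import Pool.Agent.Helper28.Koblitz.Reduction
import Pool.Agent.Helper28.Koblitz.Torsion

set_option autoImplicit false

namespace Pool.Agent.Helper28.Koblitz

open Filter

/-- Scaling of short Weierstrass equations. -/
def scaleEquiv {F : Type*} [Field F] (A B s : F) (hs : s ≠ 0) :
    {q : F × F // q.2 ^ 2 = q.1 ^ 3 + A * q.1 + B} ≃
    {q : F × F // q.2 ^ 2 = q.1 ^ 3 + (A * s ^ 4) * q.1 + B * s ^ 6} where
  toFun q := ⟨(s ^ 2 * q.1.1, s ^ 3 * q.1.2), by
    have := q.2
    linear_combination s ^ 6 * this⟩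
  invFun q := ⟨(q.1.1 / s ^ 2, q.1.2 / s ^ 3), by
    have := q.2
    show (q.1.2 / s ^ 3) ^ 2 = (q.1.1 / s ^ 2) ^ 3 + A * (q.1.1 / s ^ 2) + B
    field_simp
    linear_combination this⟩
  left_inv := by
    rintro ⟨⟨x, y⟩, h⟩
    apply Subtype.ext
    apply Prod.ext
    · show s ^ 2 * x / s ^ 2 = x
      rw [mul_div_cancel_left₀ _ (pow_ne_zero 2 hs)]
    · show s ^ 3 * y / s ^ 3 = y
      rw [mul_div_cancel_left₀ _ (pow_ne_zero 3 hs)]
  right_inv := by
    rintro ⟨⟨x, y⟩, h⟩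
    apply Subtype.ext
    apply Prod.ext
    · show s ^ 2 * (x / s ^ 2) = x
      rw [mul_div_cancel₀ _ (pow_ne_zero 2 hs)]
    · show s ^ 3 * (y / s ^ 3) = y
      rw [mul_div_cancel₀ _ (pow_ne_zero 3 hs)]

/-- The quadratic twist by `D` has the same number of points as `E` modulo `p` if `D` is a
non-zero square modulo `p`. -/
theorem numPts_quadTwist_of_isSquare (E : WeierstrassCurve ℤ) {D : ℤ} {p : ℕ} [Fact p.Prime]
    (h2 : p ≠ 2) (h3 : p ≠ 3) (hD : (D : ZMod p) ≠ 0) (hsq : IsSquare (D : ZMod p)) :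
    numPts (quadTwist E D) p = numPts E p := by
  have hp : p.Prime := Fact.out
  rw [← numPts_quadTwist_one E hp h2 h3]
  obtain ⟨s, hs⟩ := hsq
  have hs0 : s ≠ 0 := by rintro rfl; exact hD (by rw [hs]; ring)
  unfold numPts
  apply congrArg (fun n : ℕ => n + 1)
  symm
  have h1 : ∀ q : ZMod p × ZMod p,
      ((quadTwist E 1).map (Int.castRingHom (ZMod p))).toAffine.Equation q.1 q.2 ↔
      q.2 ^ 2 = q.1 ^ 3 + (-27 * (E.c₄ : ZMod p)) * q.1 + (-54 * (E.c₆ : ZMod p)) := by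
    intro q; rw [quadTwist_equation_iff]; simp
  have h2 : ∀ q : ZMod p × ZMod p,
      ((quadTwist E D).map (Int.castRingHom (ZMod p))).toAffine.Equation q.1 q.2 ↔
      q.2 ^ 2 = q.1 ^ 3 + (-27 * (E.c₄ : ZMod p) * s ^ 4) * q.1 +
        (-54 * (E.c₆ : ZMod p)) * s ^ 6 := by
    intro q; rw [quadTwist_equation_iff, hs]
    constructor
    · intro h; linear_combination h
    · intro h; linear_combination h
  rw [Nat.card_congr (Equiv.subtypeEquivRight h1), Nat.card_congr (Equiv.subtypeEquivRight h2)]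
  exact Nat.card_congr (scaleEquiv _ _ s hs0)

/-- If `W` has a rational point of order `k ≥ 3`, then `k` divides the number of points modulo
almost all primes. -/
theorem eventually_dvd_numPts (W : WeierstrassCurve ℤ) (hW : W.Δ ≠ 0)
    (P : (overQ W).toAffine.Point) (k : ℕ) (hk : 3 ≤ k) (hP : addOrderOf P = k) :
    ∀ᶠ p : ℕ in cofinite, p.Prime → k ∣ numPts W p := by
  have hbad : ∀ᶠ p : ℕ in cofinite, ¬ ((p : ℤ) ∣ W.Δ) := by
    rw [Filter.eventually_cofinite]
    refine (finite_dvd hW).subset ?_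
    intro p hp
    simpa using hp
  filter_upwards [eventually_exists_addOrderOf W P k hk hP, hbad] with p h1 h2 hp
  have : Fact p.Prime := ⟨hp⟩
  have hΔ : (overF W p).Δ ≠ 0 := by
    rw [WeierstrassCurve.map_Δ]
    rw [eq_intCast, Ne, ZMod.intCast_zmod_eq_zero_iff_dvd]
    exact h2
  obtain ⟨Q, hQ⟩ := h1 hΔ
  have hcard : numPts W p = Nat.card (overF W p).toAffine.Point := by
    rw [card_point _ hΔ]; rfl
  rw [hcard, ← hQ]
  exact addOrderOf_dvd_natCard Q

end Pool.Agent.Helper28.Koblitz
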