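import Pool.Agent.Helper28.Koblitz.Twist

set_option autoImplicit false

namespace Pool.Agent.Helper28.Koblitz

open Filter

/-- The number of solutions of `y² = g(x)` in terms of the quadratic character. -/
theorem card_sq_eq {F : Type*} [Field F] [Fintype F] [DecidableEq F] (hF : ringChar F ≠ 2)
    (g : F → F) :
    (Nat.card {q : F × F // q.2 ^ 2 = g q.1} : ℤ) = ∑ x : F, (quadraticChar F (g x) + 1) := by
  classical
  let e : {q : F × F // q.2 ^ 2 = g q.1} ≃ (Σ x : F, {y : F // y ^ 2 = g x}) :=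
    { toFun := fun q => ⟨q.1.1, ⟨q.1.2, q.2⟩⟩
      invFun := fun s => ⟨(s.1, s.2.1), s.2.2⟩
      left_inv := fun q => rfl
      right_inv := fun s => rfl }
  rw [Nat.card_congr e, Nat.card_eq_fintype_card, Fintype.card_sigma]
  push_cast
  apply Finset.sum_congr rfl
  intro x _
  rw [← quadraticChar_card_sqrts hF (g x)]
  congr 1
  rw [Fintype.card_subtype]
  congr 1
  ext y
  simp

/-- If `D` is not a square modulo `p`, the numbers of points of `E` and of its quadratic twist by
`D` add up to `2p + 2`. -/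
theorem numPts_quadTwist_add (E : WeierstrassCurve ℤ) {D : ℤ} {p : ℕ} [Fact p.Prime]
    (h2 : p ≠ 2) (h3 : p ≠ 3) (hsq : ¬ IsSquare (D : ZMod p)) :
    numPts (quadTwist E D) p + numPts E p = 2 * p + 2 := by
  classical
  have hp : p.Prime := Fact.out
  have hF : ringChar (ZMod p) ≠ 2 := by rwa [ZMod.ringChar_zmod_n]
  have hd0 : (D : ZMod p) ≠ 0 := by
    intro h; apply hsq; rw [h]; exact ⟨0, by ring⟩
  set d : ZMod p := (D : ZMod p) with hd
  set A : ZMod p := -27 * (E.c₄ : ZMod p) with hA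
  set B : ZMod p := -54 * (E.c₆ : ZMod p) with hB
  rw [← numPts_quadTwist_one E hp h2 h3]
  have e1 : Nat.card {q : ZMod p × ZMod p //
      ((quadTwist E 1).map (Int.castRingHom (ZMod p))).toAffine.Equation q.1 q.2} =
      Nat.card {q : ZMod p × ZMod p // q.2 ^ 2 = q.1 ^ 3 + A * q.1 + B} := by
    apply Nat.card_congr
    apply Equiv.subtypeEquivRight
    intro q; rw [quadTwist_equation_iff]; simp [hA, hB]
  have e2 : Nat.card {q : ZMod p × ZMod p //
      ((quadTwist E D).map (Int.castRingHom (ZMod p))).toAffine.Equation q.1 q.2} =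
      Nat.card {q : ZMod p × ZMod p // q.2 ^ 2 = d ^ 3 * (q.1 ^ 3 + A * q.1 + B)} := by
    apply Nat.card_congr
    refine ⟨fun q => ⟨(q.1.1 / d, q.1.2), ?_⟩, fun q => ⟨(d * q.1.1, q.1.2), ?_⟩, ?_, ?_⟩
    · have h := (quadTwist_equation_iff E D p q.1.1 q.1.2).mp q.2
      show q.1.2 ^ 2 = d ^ 3 * ((q.1.1 / d) ^ 3 + A * (q.1.1 / d) + B)
      rw [h]
      field_simp
      ring
    · rw [quadTwist_equation_iff]
      have h := q.2
      show q.1.2 ^ 2 = _
      rw [h]
      ring
    · rintro ⟨⟨x, y⟩, h⟩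
      apply Subtype.ext
      apply Prod.ext
      · show d * (x / d) = x
        rw [mul_div_cancel₀ _ hd0]
      · rfl
    · rintro ⟨⟨x, y⟩, h⟩
      apply Subtype.ext
      apply Prod.ext
      · show d * x / d = x
        rw [mul_div_cancel_left₀ _ hd0]
      · rfl
  have hχd : quadraticChar (ZMod p) (d ^ 3) = -1 := by
    rw [map_pow, (quadraticChar_neg_one_iff_not_isSquare).mpr hsq]; norm_num
  have key : ((numPts (quadTwist E D) p + numPts (quadTwist E 1) p : ℕ) : ℤ) = 2 * p + 2 := by
    unfold numPts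
    rw [e1, e2]
    push_cast
    rw [card_sq_eq hF (fun x => x ^ 3 + A * x + B),
      card_sq_eq hF (fun x => d ^ 3 * (x ^ 3 + A * x + B))]
    have : ∀ x : ZMod p, quadraticChar (ZMod p) (d ^ 3 * (x ^ 3 + A * x + B)) =
        - quadraticChar (ZMod p) (x ^ 3 + A * x + B) := by
      intro x; rw [map_mul, hχd]; ring
    simp only [this]
    rw [Finset.sum_add_distrib, Finset.sum_add_distrib, Finset.sum_neg_distrib]
    simp
    ring
  exact_mod_cast key

end Pool.Agent.Helper28.Koblitz
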