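import Pool.Agent.Helper28.Koblitz.Witness

set_option autoImplicit false

/-!
# A 2-adic gap and the refined Koblitz conjecture for `t ≡ 2 mod 4`

If the discriminant of `E` is a square, or if `f'(θ)` is a square in `ℚ(θ)` for the roots `θ` of
the 2-division cubic `f`, then `|E(𝔽_p)|` is never `2 mod 4` (for `p ∤ 6Δ` outside a finite set),
although `|E(𝔽_p)|` is in general odd for a positive proportion of `p`.
-/

namespace Pool.Agent.Helper28.Koblitz.TwoAdicGapOld

open Pool.Agent.Helper28.Koblitz Polynomial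

/-- The finitely many exceptional primes. -/
theorem finite_two_mod_four (E : WeierstrassCurve ℤ)
    (hE : IsSquare E.Δ ∨ ∃ g : ℚ[X], shortCubic E ∣ derivative (shortCubic E) - g ^ 2) :
    {p : ℕ | p.Prime ∧ ¬ (((p : ℕ) : ℤ) ∣ E.Δ) ∧ numPts E p % 4 = 2}.Finite := by
  rcases hE with hsq | ⟨g, hg⟩
  · refine (Set.finite_Iic 3).subset ?_
    rintro p ⟨hp, hgood, h24⟩
    by_contra hp3
    rw [Set.mem_Iic, not_le] at hp3
    have : Fact p.Prime := ⟨hp⟩
    obtain ⟨e, -, -, hns, -⟩ := exists_unique_root E (by omega) (by omega) hgood h24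
    apply hns
    obtain ⟨s, hs⟩ := hsq
    exact ⟨(s : ZMod p), by rw [hs]; push_cast; ring⟩
  · obtain ⟨n, G, hn, hG⟩ := exists_integral_witness E 1 g (by simpa using hg)
    refine ((Set.finite_Iic 3).union (finite_dvd hn)).subset ?_
    rintro p ⟨hp, hgood, h24⟩
    by_contra hcon
    rw [Set.mem_union, not_or, Set.mem_Iic, not_le] at hcon
    obtain ⟨hp3, hpn⟩ := hcon
    have : Fact p.Prime := ⟨hp⟩
    obtain ⟨e, he, -, -, hns⟩ := exists_unique_root E (by omega) (by omega) hgood h24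
    apply hns
    have hn0 : (n : ZMod p) ≠ 0 := by
      rw [Ne, ZMod.intCast_zmod_eq_zero_iff_dvd]; exact hpn
    have h := hG p e he
    refine ⟨(G.eval₂ (Int.castRingHom (ZMod p)) e) / n, ?_⟩
    rw [div_mul_div_comm, eq_div_iff (mul_ne_zero hn0 hn0)]
    rw [Int.cast_one, one_mul] at h
    linear_combination h

/-- **The refined Koblitz conjecture for `t ≡ 2 mod 4` and curves with a 2-adic gap.** Let `E` be
an elliptic curve over `ℚ` given by an integral Weierstrass equation, with `j(E) ≠ 0, 1728`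
(i.e. `c₄ c₆ ≠ 0`). Suppose that the discriminant `Δ` of `E` is a square, or that there is
`g ∈ ℚ[X]` with `f ∣ f' - g²`, where `f = X³ - 27 c₄ X - 54 c₆` (for irreducible `f = f_θ` this
says that `f'(θ)` is a square in `ℚ(θ)`). Then for every `t ≡ 2 mod 4`:
* there are only finitely many primes `p ∤ Δ` such that `|E(𝔽_p)|/t` is a prime;
* `C_{E,t} = 0`;
* the refined Koblitz conjecture holds for `(E, t)`. -/
theorem result (E : WeierstrassCurve ℤ) (h4 : E.c₄ ≠ 0) (h6 : E.c₆ ≠ 0)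
    (hE : IsSquare E.Δ ∨ ∃ g : ℚ[X], shortCubic E ∣ derivative (shortCubic E) - g ^ 2)
    (t : ℕ) (ht : t % 4 = 2) :
    {p : ℕ | p.Prime ∧ ¬ (((p : ℕ) : ℤ) ∣ E.Δ) ∧ t ∣ numPts E p ∧
      Nat.Prime (numPts E p / t)}.Finite ∧ ConstantZero E t ∧ RefinedKoblitz E t := by
  apply koblitz_of_finite E h4 h6 t 4 (by norm_num)
  refine (finite_two_mod_four E hE).subset ?_
  rintro p ⟨hp, hgood, u, hu, hN⟩
  refine ⟨hp, hgood, ?_⟩
  have hunits : ∀ v : ZMod 4, IsUnit v → v = 1 ∨ v = 3 := by decide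
  have hu' : u = 1 ∨ u = 3 := hunits u hu
  have ht' : (t : ZMod 4) = 2 := by
    have : ((t % 4 : ℕ) : ZMod 4) = (t : ZMod 4) := ZMod.natCast_mod t 4
    rw [← this, ht]; rfl
  have h2 : ((numPts E p : ℕ) : ZMod 4) = ((2 : ℕ) : ZMod 4) := by
    rw [hN, ht']
    rcases hu' with rfl | rfl <;> decide
  have := (ZMod.natCast_eq_natCast_iff' (numPts E p) 2 4).mp h2
  simpa using this

end Pool.Agent.Helper28.Koblitz.TwoAdicGapOld
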