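import Pool.Agent.Helper28.Koblitz.TwistSum

set_option autoImplicit false

/-!
# Entanglement of the 2-adic and the odd torsion at the level `v₂(|E(𝔽_p)|) = 1`

Let `E₁, E₂` be elliptic curves over `ℚ` isogenous to `E`, and suppose that the quadratic twist
of `E` by an integer `D ≠ 0` is isogenous to a curve with a rational point of odd order `k > 1`.
If `|E(𝔽_p)| ≡ 2 mod 4` then `Δ(E₁)` and `Δ(E₂)` are non-squares modulo `p`. Hence, if
`D Δ(E₁) Δ(E₂)` is a square, or if `k = 3` and `-3 Δ(E₁)` is a square, then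
`|E(𝔽_p)| ≡ 2 mod 4` implies `k ∣ |E(𝔽_p)|`.
-/

namespace Pool.Agent.Helper28.Koblitz.ValuationOneTwist

open Pool.Agent.Helper28.Koblitz Filter

/-- If `-3` is not a square modulo the prime `p > 3`, then `p ≡ 2 mod 3`. -/
theorem three_dvd_succ {p : ℕ} [Fact p.Prime] (h3 : p ≠ 3)
    (h : ¬ IsSquare (-3 : ZMod p)) : 3 ∣ p + 1 := by
  have hp : p.Prime := Fact.out
  by_contra hcon
  apply h
  have hp3 : p % 3 = 1 := by
    have : p % 3 ≠ 0 := by
      intro h0
      exact h3 ((Nat.prime_dvd_prime_iff_eq Nat.prime_three hp).mp (Nat.dvd_of_mod_eq_zero h0)).symm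
    omega
  -- an element of order `3` in the unit group
  have hcard : 3 ∣ Fintype.card (ZMod p)ˣ := by
    rw [ZMod.card_units]
    omega
  have : Fact (Nat.Prime 3) := ⟨Nat.prime_three⟩
  obtain ⟨u, hu⟩ := exists_prime_orderOf_dvd_card 3 hcard
  have hu3 : (u : ZMod p) ^ 3 = 1 := by
    have := pow_orderOf_eq_one u
    rw [hu] at this
    have h' := congrArg Units.val this
    simpa using h'
  have hu1 : (u : ZMod p) ≠ 1 := by
    intro h1
    have : u = 1 := Units.ext h1
    rw [this, orderOf_one] at hu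
    exact absurd hu (by norm_num)
  have hq : (u : ZMod p) ^ 2 + u + 1 = 0 := by
    have : ((u : ZMod p) - 1) * ((u : ZMod p) ^ 2 + u + 1) = 0 := by linear_combination hu3
    rcases mul_eq_zero.mp this with h | h
    · exact absurd (sub_eq_zero.mp h) hu1
    · exact h
  exact ⟨2 * u + 1, by linear_combination (-4 : ZMod p) * hq⟩

theorem finite_coprime (E E₁ E₂ E' : WeierstrassCurve ℤ) (hE' : E'.Δ ≠ 0)
    (h₁ : E₁.Δ ≠ 0) (h₂ : E₂.Δ ≠ 0) (D : ℤ) (hD : D ≠ 0)
    (hi₁ : {p : ℕ | p.Prime ∧ numPts E₁ p ≠ numPts E p}.Finite)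
    (hi₂ : {p : ℕ | p.Prime ∧ numPts E₂ p ≠ numPts E p}.Finite)
    (hiso : {p : ℕ | p.Prime ∧ numPts E' p ≠ numPts (quadTwist E D) p}.Finite)
    (k : ℕ) (hk : 3 ≤ k) (P : (overQ E').toAffine.Point) (hP : addOrderOf P = k)
    (hcase : (k = 3 ∧ IsSquare (-3 * E₁.Δ)) ∨ IsSquare (D * E₁.Δ * E₂.Δ)) :
    {p : ℕ | p.Prime ∧ numPts E p % 4 = 2 ∧ ¬ k ∣ numPts E p}.Finite := by
  have h1 := eventually_dvd_numPts E' hE' P k hk hP
  rw [Filter.eventually_cofinite] at h1
  refine ((((((h1.union hiso).union (Set.finite_Iic 3)).union hi₁).union hi₂).union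
    (finite_dvd h₁)).union ((finite_dvd h₂).union (finite_dvd hD))).subset ?_
  rintro p ⟨hp, h24, hkp⟩
  by_contra hcon
  simp only [Set.mem_union, not_or] at hcon
  obtain ⟨⟨⟨⟨⟨⟨hc1, hc2⟩, hc3⟩, hc4⟩, hc5⟩, hc6⟩, hc7, hc8⟩ := hcon
  rw [Set.mem_Iic, not_le] at hc3
  have hk' : k ∣ numPts E' p := by
    by_contra h
    apply hc1
    intro h'
    exact h (h' hp)
  have heq : numPts E' p = numPts (quadTwist E D) p := by
    by_contra h
    exact hc2 ⟨hp, h⟩
  have heq1 : numPts E₁ p = numPts E p := by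
    by_contra h
    exact hc4 ⟨hp, h⟩
  have heq2 : numPts E₂ p = numPts E p := by
    by_contra h
    exact hc5 ⟨hp, h⟩
  have : Fact p.Prime := ⟨hp⟩
  have hns1 : ¬ IsSquare (E₁.Δ : ZMod p) := by
    obtain ⟨e, -, -, hns, -⟩ := exists_unique_root E₁ (by omega) (by omega) hc6
      (by rw [heq1]; exact h24)
    exact hns
  have hns2 : ¬ IsSquare (E₂.Δ : ZMod p) := by
    obtain ⟨e, -, -, hns, -⟩ := exists_unique_root E₂ (by omega) (by omega) hc7
      (by rw [heq2]; exact h24)
    exact hns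
  have hD0 : (D : ZMod p) ≠ 0 := by
    rw [Ne, ZMod.intCast_zmod_eq_zero_iff_dvd]; exact hc8
  rw [heq] at hk'
  have hsqcase : IsSquare (D : ZMod p) → False := by
    intro hsq
    rw [numPts_quadTwist_of_isSquare E (by omega) (by omega) hD0 hsq] at hk'
    exact hkp hk'
  rcases hcase with ⟨rfl, s, hs⟩ | ⟨s, hs⟩
  · by_cases hsq : IsSquare (D : ZMod p)
    · exact hsqcase hsq
    · have hadd := numPts_quadTwist_add E (p := p) (by omega) (by omega) hsq
      have h3 : 3 ∣ p + 1 := by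
        apply three_dvd_succ (by omega)
        rintro ⟨r, hr⟩
        apply hns1
        have e3 := three_ne_zero_zmod hp (by omega : p ≠ 3)
        have hsp : (-3 : ZMod p) * (E₁.Δ : ZMod p) = (s : ZMod p) * s := by
          have := congrArg (Int.cast : ℤ → ZMod p) hs
          push_cast at this
          exact this
        have hr0 : r ≠ 0 := by
          rintro rfl
          apply e3
          linear_combination -hr
        refine ⟨(s : ZMod p) / r, ?_⟩
        rw [div_mul_div_comm, eq_div_iff (mul_ne_zero hr0 hr0), ← hr, ← hsp]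
        ring
      omega
  · apply hsqcase
    have hsp : (D : ZMod p) * (E₁.Δ : ZMod p) * (E₂.Δ : ZMod p) = (s : ZMod p) * s := by
      have := congrArg (Int.cast : ℤ → ZMod p) hs
      push_cast at this
      exact this
    have h12 : IsSquare ((E₁.Δ : ZMod p) * (E₂.Δ : ZMod p)) := by
      have hF : ringChar (ZMod p) ≠ 2 := by rw [ZMod.ringChar_zmod_n]; omega
      have n1 : (E₁.Δ : ZMod p) ≠ 0 := by
        intro h; exact hns1 (by rw [h]; exact ⟨0, by ring⟩)
      have n2 : (E₂.Δ : ZMod p) ≠ 0 := by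
        intro h; exact hns2 (by rw [h]; exact ⟨0, by ring⟩)
      rw [← quadraticChar_one_iff_isSquare (mul_ne_zero n1 n2), map_mul,
        (quadraticChar_neg_one_iff_not_isSquare).mpr hns1,
        (quadraticChar_neg_one_iff_not_isSquare).mpr hns2]
      norm_num
    obtain ⟨r, hr⟩ := h12
    have hr0 : r ≠ 0 := by
      rintro rfl
      rw [zero_mul] at hr
      rcases mul_eq_zero.mp hr with h | h
      · exact hns1 (by rw [h]; exact ⟨0, by ring⟩)
      · exact hns2 (by rw [h]; exact ⟨0, by ring⟩)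
    refine ⟨(s : ZMod p) / r, ?_⟩
    rw [div_mul_div_comm, eq_div_iff (mul_ne_zero hr0 hr0), ← hr, ← hsp]
    ring

/-- **The refined Koblitz conjecture and entanglement at the level `v₂ = 1`.**
Let `E` be an elliptic curve over `ℚ` given by an integral Weierstrass equation, with
`j(E) ≠ 0, 1728` (i.e. `c₄ c₆ ≠ 0`). Let `E₁`, `E₂` be elliptic curves isogenous to `E`
(that is: with the same number of points modulo almost all primes), let `D ≠ 0` be an integer,
and suppose that the quadratic twist of `E` by `D` is isogenous to an elliptic curve `E'` having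
a rational point `P` of odd order `k > 1`. Suppose moreover that `k = 3` and `-3 Δ(E₁)` is a
square, or that `D Δ(E₁) Δ(E₂)` is a square. Then, for every `t ≡ 2 mod 4` not divisible by `k`:
* there are only finitely many primes `p ∤ Δ` such that `|E(𝔽_p)|/t` is a prime;
* `C_{E,t} = 0`;
* the refined Koblitz conjecture holds for `(E, t)`. -/
theorem result (E : WeierstrassCurve ℤ) (h4 : E.c₄ ≠ 0) (h6 : E.c₆ ≠ 0)
    (E₁ E₂ E' : WeierstrassCurve ℤ) (h₁ : E₁.Δ ≠ 0) (h₂ : E₂.Δ ≠ 0) (hE' : E'.Δ ≠ 0)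
    (hi₁ : {p : ℕ | p.Prime ∧ numPts E₁ p ≠ numPts E p}.Finite)
    (hi₂ : {p : ℕ | p.Prime ∧ numPts E₂ p ≠ numPts E p}.Finite)
    (D : ℤ) (hD : D ≠ 0)
    (hiso : {p : ℕ | p.Prime ∧ numPts E' p ≠ numPts (quadTwist E D) p}.Finite)
    (k : ℕ) (hk : Odd k) (hk1 : 1 < k) (P : (overQ E').toAffine.Point) (hP : addOrderOf P = k)
    (hcase : (k = 3 ∧ IsSquare (-3 * E₁.Δ)) ∨ IsSquare (D * E₁.Δ * E₂.Δ))
    (t : ℕ) (ht : t % 4 = 2) (hkt : ¬ k ∣ t) :
    {p : ℕ | p.Prime ∧ ¬ (((p : ℕ) : ℤ) ∣ E.Δ) ∧ t ∣ numPts E p ∧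
      Nat.Prime (numPts E p / t)}.Finite ∧ ConstantZero E t ∧ RefinedKoblitz E t := by
  have hk3 : 3 ≤ k := by
    rcases hk with ⟨a, ha⟩; omega
  apply koblitz_of_finite E h4 h6 t (4 * k) (by omega)
  refine (finite_coprime E E₁ E₂ E' hE' h₁ h₂ D hD hi₁ hi₂ hiso k hk3 P hP hcase).subset ?_
  rintro p ⟨hp, hgood, u, hu, hN⟩
  have hne : NeZero (4 * k) := ⟨by omega⟩
  have hu' : Nat.Coprime u.val (4 * k) := by
    have := (ZMod.isUnit_iff_coprime u.val (4 * k)).mp (by rwa [ZMod.natCast_zmod_val])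
    exact this
  have hmod : numPts E p ≡ t * u.val [MOD (4 * k)] := by
    rw [← ZMod.natCast_eq_natCast_iff, hN]
    push_cast
    rw [ZMod.natCast_zmod_val]
  refine ⟨hp, ?_, ?_⟩
  · have h2 : numPts E p % 4 = (t * u.val) % 4 := hmod.of_mul_right k
    have hcop : Nat.Coprime u.val 4 := Nat.Coprime.coprime_mul_right_right hu'
    have hodd : u.val % 2 = 1 := by
      have h := Nat.Coprime.coprime_dvd_right (by norm_num : 2 ∣ 4) hcop
      rw [Nat.coprime_two_right] at h
      exact Nat.odd_iff.mp h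
    rw [h2, Nat.mul_mod, ht]
    have : u.val % 4 = 1 ∨ u.val % 4 = 3 := by omega
    rcases this with h | h <;> rw [h]
  · intro hkN
    have h3 : numPts E p ≡ t * u.val [MOD k] := hmod.of_mul_left 4
    have h4 : k ∣ t * u.val := (h3.dvd_iff (dvd_refl k)).mp hkN
    have hcop : Nat.Coprime k u.val := (Nat.Coprime.coprime_mul_left_right hu').symm
    exact hkt (hcop.dvd_of_dvd_mul_right h4)

end Pool.Agent.Helper28.Koblitz.ValuationOneTwist
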