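import Pool.Agent.Helper28.Koblitz.Reduction

set_option autoImplicit false

namespace Pool.Agent.Helper28.Koblitz

open Polynomial

/-- The cubic `X³ - 27 c₄ X - 54 c₆`: the elliptic curve `E` is isomorphic over `ℚ` to
`Y² = X³ - 27 c₄ X - 54 c₆`, and the roots of the cubic are the abscissae of the points of
order two. -/
noncomputable def shortCubic (E : WeierstrassCurve ℤ) : ℚ[X] :=
  X ^ 3 + C (-27 * (E.c₄ : ℚ)) * X + C (-54 * (E.c₆ : ℚ))

noncomputable def shortCubicZ (E : WeierstrassCurve ℤ) : ℤ[X] :=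
  X ^ 3 + C (-27 * E.c₄) * X + C (-54 * E.c₆)

theorem shortCubicZ_map (E : WeierstrassCurve ℤ) :
    (shortCubicZ E).map (algebraMap ℤ ℚ) = shortCubic E := by
  have h1 : (algebraMap ℤ ℚ) (-27 * E.c₄) = -27 * (E.c₄ : ℚ) := by simp
  have h2 : (algebraMap ℤ ℚ) (-54 * E.c₆) = -54 * (E.c₆ : ℚ) := by simp
  rw [shortCubicZ, shortCubic, Polynomial.map_add, Polynomial.map_add, Polynomial.map_mul,
    Polynomial.map_pow, Polynomial.map_X, Polynomial.map_C, Polynomial.map_C, h1, h2]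

/-- If `c f'` is a square modulo `f` over `ℚ`, then it is so modulo almost all primes. -/
theorem exists_integral_witness (E : WeierstrassCurve ℤ) (c : ℤ) (g : ℚ[X])
    (hg : shortCubic E ∣ C (c : ℚ) * derivative (shortCubic E) - g ^ 2) :
    ∃ (n : ℤ) (G : ℤ[X]), n ≠ 0 ∧ ∀ (p : ℕ) [Fact p.Prime] (e : ZMod p),
      e ^ 3 + (-27 * (E.c₄ : ZMod p)) * e + (-54 * (E.c₆ : ZMod p)) = 0 →
      (n : ZMod p) ^ 2 * ((c : ZMod p) * (3 * e ^ 2 + (-27 * (E.c₄ : ZMod p)))) =
        (G.eval₂ (Int.castRingHom (ZMod p)) e) ^ 2 := by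
  obtain ⟨h, hh⟩ := hg
  obtain ⟨b₁, hb₁, hG₁⟩ := IsLocalization.integerNormalization_spec (nonZeroDivisors ℤ) g
  obtain ⟨b₂, hb₂, hH₂⟩ := IsLocalization.integerNormalization_spec (nonZeroDivisors ℤ) h
  set G₁ := IsLocalization.integerNormalization (nonZeroDivisors ℤ) g
  set H₂ := IsLocalization.integerNormalization (nonZeroDivisors ℤ) h
  have hb₁0 : b₁ ≠ 0 := nonZeroDivisors.ne_zero hb₁
  have hb₂0 : b₂ ≠ 0 := nonZeroDivisors.ne_zero hb₂
  refine ⟨b₁ * b₂, C b₂ * G₁, mul_ne_zero hb₁0 hb₂0, ?_⟩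
  have key : shortCubicZ E * (C (b₁ ^ 2 * b₂) * H₂) =
      C ((b₁ * b₂) ^ 2) * (C c * derivative (shortCubicZ E)) - (C b₂ * G₁) ^ 2 := by
    apply Polynomial.map_injective (algebraMap ℤ ℚ) (algebraMap ℤ ℚ).injective_int
    simp only [Polynomial.map_mul, Polynomial.map_sub, Polynomial.map_pow, Polynomial.map_C,
      Polynomial.derivative_map, ← Polynomial.derivative_map, shortCubicZ_map, hG₁, hH₂]
    have h1 : (b₁ • g : ℚ[X]) = C (b₁ : ℚ) * g := by
      rw [zsmul_eq_mul, ← map_intCast (C : ℚ →+* ℚ[X])]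
    have h2 : (b₂ • h : ℚ[X]) = C (b₂ : ℚ) * h := by
      rw [zsmul_eq_mul, ← map_intCast (C : ℚ →+* ℚ[X])]
    rw [h1, h2]
    simp only [eq_intCast, Int.cast_mul, Int.cast_pow, map_mul, map_pow]
    linear_combination (-(C (b₁ : ℚ) ^ 2 * C (b₂ : ℚ) ^ 2)) * hh
  intro p _ e he
  have hev := congrArg (Polynomial.eval₂ (Int.castRingHom (ZMod p)) e) key
  simp only [Polynomial.eval₂_mul, Polynomial.eval₂_sub, Polynomial.eval₂_pow,
    Polynomial.eval₂_C] at hev
  have h0 : Polynomial.eval₂ (Int.castRingHom (ZMod p)) e (shortCubicZ E) = 0 := by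
    simp only [shortCubicZ, Polynomial.eval₂_add, Polynomial.eval₂_mul, Polynomial.eval₂_pow,
      Polynomial.eval₂_C, Polynomial.eval₂_X]
    simpa using he
  have h1 : Polynomial.eval₂ (Int.castRingHom (ZMod p)) e (derivative (shortCubicZ E)) =
      3 * e ^ 2 + (-27 * (E.c₄ : ZMod p)) := by
    simp only [shortCubicZ, derivative_add, derivative_mul, derivative_C, derivative_X,
      derivative_X_pow, eval₂_add, eval₂_mul, eval₂_C, eval₂_X, eval₂_pow, zero_mul, zero_add,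
      mul_one, add_zero]
    simp
  rw [h0, h1, zero_mul] at hev
  rw [Polynomial.eval₂_mul, Polynomial.eval₂_C]
  simp only [eq_intCast, Int.cast_mul, Int.cast_pow] at hev ⊢
  linear_combination -hev

end Pool.Agent.Helper28.Koblitz
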